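import Pool.Agent.X264.RingDefs

/-!
# The ring of correspondences: properties
-/

open CategoryTheory AlgebraicGeometry

universe u v

namespace Pool.Agent.X264

open Pool.Agent.H914 VarClass Obj WeilCohomology Pool.Agent.W537

section Mod

variable (R : Type*) [Ring R] {M : Type*} [AddCommGroup M] [Module R M]

/-- The submodule of `M` generated by `s` is semisimple. -/
def GeneratesSemisimple (s : Set M) : Prop := IsSemisimpleModule R (Submodule.span R s)

/-- The submodule of `M` generated by `s` is injective. -/
def GeneratesInjective (s : Set M) : Prop := Module.Injective R (Submodule.span R s)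

end Mod

section Alg

variable {K : Type*} [Field K] {V : Type*} [AddCommGroup V] [Module K V]

/-- The ring `R` of operators is semisimple. -/
def OpsSemisimple (R : Subring (Module.End K V)) : Prop := IsSemisimpleRing R

/-- The ring `R` of operators is self-injective, i.e. it is an injective left module over
itself. -/
def OpsSelfInjective (R : Subring (Module.End K V)) : Prop := Module.Injective R R

/-- The space `V` is a semisimple module over the ring `R` of operators. -/
def SpaceSemisimple (R : Subring (Module.End K V)) : Prop := IsSemisimpleModule R V

/-- Each operator `T` in the ring `R` has a generalized inverse in `R`, i.e. an operator `S` in `R`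
with `T S T = T`. -/
def OpsInverses (R : Subring (Module.End K V)) : Prop := ∀ T ∈ R, ∃ S ∈ R, T * S * T = T

/-- The `R`-submodule of `V` generated by `s` is semisimple. -/
def SpanSemisimple (R : Subring (Module.End K V)) (s : Set V) : Prop :=
  GeneratesSemisimple R s

/-- The `R`-submodule of `V` generated by `s` is an injective `R`-module. -/
def SpanInjective (R : Subring (Module.End K V)) (s : Set V) : Prop :=
  GeneratesInjective R s

end Alg

variable {k : Type u} [Field k] {𝒱 : VarClass k} {ops : CycleOps 𝒱}

/-- The classes of the algebraic cycles on `X` of all codimensions. -/
def cycClasses (W : WeilCohomology.{u, v} ops) (X : 𝒱.Obj) : Set (W.H X) :=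
  {a | ∃ p z, X.IsCyc p z ∧ W.cl X z = a}

/-- The ring of correspondences of `X` is semisimple. -/
def CorrSemisimple (W : WeilCohomology.{u, v} ops) (X : 𝒱.Obj) : Prop :=
  OpsSemisimple (corrRing W X)

/-- The ring of correspondences of `X` is self-injective. -/
def CorrSelfInjective (W : WeilCohomology.{u, v} ops) (X : 𝒱.Obj) : Prop :=
  OpsSelfInjective (corrRing W X)

/-- The cohomology of `X` is a semisimple module over the ring of correspondences. -/
def CohomologySemisimple (W : WeilCohomology.{u, v} ops) (X : 𝒱.Obj) : Prop :=
  SpaceSemisimple (corrRing W X)

/-- Each element of the ring of correspondences of `X` has a generalized inverse in this ring. -/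
def CorrInverses (W : WeilCohomology.{u, v} ops) (X : 𝒱.Obj) : Prop :=
  OpsInverses (corrRing W X)

/-- The submodule of `H(X)` generated by the cycle classes over the ring of correspondences is
semisimple. -/
def ClassesSemisimple (W : WeilCohomology.{u, v} ops) (X : 𝒱.Obj) : Prop :=
  SpanSemisimple (corrRing W X) (cycClasses W X)

/-- The submodule of `H(X)` generated by the cycle classes over the ring of correspondences is
injective. -/
def ClassesInjective (W : WeilCohomology.{u, v} ops) (X : 𝒱.Obj) : Prop :=
  SpanInjective (corrRing W X) (cycClasses W X)

end Pool.Agent.X264
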