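import Pool.Agent.W537.RangeA
import Pool.Agent.W537.OneCycleB

/-!
# Numerically trivial operators: the abstract argument
-/

open Polynomial Finset

namespace Pool.Agent.X264

open Pool.Agent.H914 Pool.Agent.H447 Pool.Agent.W537

variable {K : Type*} [Field K] {V : Type*} [AddCommGroup V] [Module K V]
variable {gr : ℕ → Submodule K V} {n : ℕ} {L : Module.End K V}

/-- The operator `u` of degree `d` is numerically trivial. -/
def NT (R : ℤ → Module.End K V → Prop) (h : DirectSum.IsInternal gr) (d : ℤ)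
    (u : Module.End K V) : Prop :=
  R d u ∧ ∀ y, R (-d) y → LinearMap.trace K V (par h * (u * y)) = 0

/-- There is no nonzero numerically trivial operator of degree `d`. -/
def NumZero (R : ℤ → Module.End K V → Prop) (h : DirectSum.IsInternal gr) (d : ℤ) : Prop :=
  ∀ u, NT R h d u → u = 0

section Coef

/-- The scalar by which `f ^ k` maps `L ^ (s + k) p` to `L ^ s p`, where `p` is primitive of weight
`-m`. -/
def cf (m s k : ℕ) : ℚ := ∏ l ∈ range k, (((s + l + 1) * (m - (s + l)) : ℕ) : ℚ)

lemma cf_ne {m s k : ℕ} (h : s + k ≤ m) : cf m s k ≠ 0 := by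
  rw [cf, Finset.prod_ne_zero_iff]
  intro l hl
  rw [Finset.mem_range] at hl
  have : 0 < (s + l + 1) * (m - (s + l)) := Nat.mul_pos (by omega) (by omega)
  exact_mod_cast this.ne'

lemma f_pow_scal [CharZero K] {f : Module.End K V}
    (hf : ∀ i ≤ n, ∀ a ∈ gr i, (L ^ (n - i + 1)) a = 0 → ∀ j ≤ n - i,
      f ((L ^ j) a) = ((j : K) * (((n - i : ℕ) : K) - j + 1)) • (L ^ (j - 1)) a)
    {i : ℕ} (hi : i ≤ n) {a : V} (ha : a ∈ gr i) (hp : (L ^ (n - i + 1)) a = 0) (s : ℕ) :
    ∀ k, s + k ≤ n - i → (f ^ k) ((L ^ (s + k)) a) = ((cf (n - i) s k : ℚ) : K) • (L ^ s) a := by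
  intro k
  induction k with
  | zero => intro _; simp [cf]
  | succ k ih =>
    intro hk
    rw [pow_succ, Module.End.mul_apply, hf i hi a ha hp (s + (k + 1)) hk,
      show s + (k + 1) - 1 = s + k by omega, map_smul, ih (by omega), smul_smul]
    congr 1
    rw [cf, cf, Finset.prod_range_succ]
    have e1 : ((n - i - (s + k) : ℕ) : K) = ((n - i : ℕ) : K) - s - k := by
      rw [Nat.cast_sub (by omega)]; push_cast; ring
    push_cast
    rw [e1]
    ring

end Coef

variable {R : ℤ → Module.End K V → Prop}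

section Basic

variable [CharZero K]

lemma NT.mul_right (hR : OpAlg gr R) {h : DirectSum.IsInternal gr} {d e : ℤ}
    {u x : Module.End K V} (hu : NT R h d u) (hx : R e x) : NT R h (d + e) (u * x) := by
  refine ⟨hR.mul hu.1 hx, fun y hy => ?_⟩
  rw [mul_assoc]
  exact hu.2 _ (hR.cast (hR.mul hx hy) (by ring))

lemma NT.mul_left (hR : OpAlg gr R) {h : DirectSum.IsInternal gr} {d e : ℤ}
    {u x : Module.End K V} (hu : NT R h d u) (hx : R e x) : NT R h (d + e) (x * u) := by
  refine ⟨hR.cast (hR.mul hx hu.1) (by ring), fun y hy => ?_⟩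
  rw [mul_assoc, str_comm h (hR.hom hx), mul_assoc]
  exact hu.2 _ (hR.cast (hR.mul hy hx) (by ring))

omit [CharZero K] in
lemma NT.cast {h : DirectSum.IsInternal gr} {d e : ℤ}
    {u : Module.End K V} (hu : NT R h d u) (hde : d = e) : NT R h e u := hde ▸ hu

/-- If the power `r` of the lowering operator is in the algebra, then so are operators which invert
`L ^ c : gr (n - c) → gr (n + c)` for all `c ≥ r`. -/
theorem theta_of_f_pow (hR : OpAlg gr R) (hbd : ∀ i, 2 * n + 1 ≤ i → gr i = ⊥)
    (hL : R 1 L) (hHL : HardLef gr n L) {f : Module.End K V}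
    (hf : ∀ i ≤ n, ∀ a ∈ gr i, (L ^ (n - i + 1)) a = 0 → ∀ j ≤ n - i,
      f ((L ^ j) a) = ((j : K) * (((n - i : ℕ) : K) - j + 1)) • (L ^ (j - 1)) a)
    {r : ℕ} (hr : 1 ≤ r) (hfr : R (-r) (f ^ r)) {c : ℕ} (hrc : r ≤ c) (hcn : c ≤ n) :
    ∃ θ, R (-c) θ ∧ ∀ a ∈ gr (n - c), θ ((L ^ c) a) = a := by
  have hLh : IsHom gr 2 L := by simpa using hR.hom hL
  -- write `c + b = (k + 1) r` with `b < r`
  obtain ⟨k, b, hkb, hbr⟩ : ∃ k b, c + b = k * r + r ∧ b < r := by
    refine ⟨(c - 1) / r, r - 1 - (c - 1) % r, ?_, by omega⟩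
    have h1 := Nat.div_add_mod (c - 1) r
    have h2 := Nat.mod_lt (c - 1) (show 0 < r by omega)
    rw [mul_comm] at h1
    omega
  set T : Module.End K V := (f ^ r) ^ k * L ^ b * f ^ r with hT
  have hTR : R (-c) T := by
    refine hR.cast (hR.mul (hR.mul (hR.pow hfr k) (hR.pow hL b)) hfr) ?_
    have : (c : ℤ) + b = k * r + r := by exact_mod_cast hkb
    linarith
  set E : Module.End K V := T * L ^ c with hE
  have hER : R 0 E := hR.cast (hR.mul hTR (hR.pow hL c)) (by ring)
  -- the eigenvalues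
  set lam : ℕ → ℚ := fun j => cf (c + 2 * j) (c + j - r) r * cf (c + 2 * j) j (k * r) with hlam
  have hlam0 : ∀ j, lam j ≠ 0 := by
    intro j
    exact mul_ne_zero (cf_ne (by omega)) (cf_ne (by omega))
  have heig : ∀ i ≤ n, ∀ a ∈ gr i, (L ^ (n - i + 1)) a = 0 → ∀ j, i + 2 * j = n - c →
      E ((L ^ j) a) = ((lam j : ℚ) : K) • (L ^ j) a := by
    intro i hi a ha hp j hj
    have hm : n - i = c + 2 * j := by omega
    rw [hE, hT, Module.End.mul_apply, Module.End.mul_apply, Module.End.mul_apply,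
      ← Module.End.mul_apply (L ^ c), ← pow_add, show c + j = (c + j - r) + r by omega,
      f_pow_scal hf hi ha hp (c + j - r) r (by omega), map_smul, ← Module.End.mul_apply (L ^ b),
      ← pow_add, show b + (c + j - r) = j + k * r by omega, map_smul, ← pow_mul, mul_comm r k,
      f_pow_scal hf hi ha hp j (k * r) (by omega), smul_smul, hm, hlam]
    push_cast
    rfl
  -- the interpolation
  set S : ℚ[X] := ∏ j ∈ range (n + 1), (1 - C (lam j)⁻¹ * X) with hS
  have hS0 : S.eval 0 = 1 := by
    rw [hS, eval_prod]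
    apply Finset.prod_eq_one
    intro j _
    simp
  obtain ⟨g, hg⟩ : X ∣ 1 - S := by
    rw [X_dvd_iff, coeff_zero_eq_eval_zero, eval_sub, hS0]
    simp
  have hev : ∀ a ∈ gr (n - c), ev E S a = 0 := by
    have key := lef_induction hLh hbd hHL (p := fun i a => i = n - c → ev E S a = 0)
      (by intro i a b ha hb hi; rw [map_add, ha hi, hb hi, add_zero])
      (by
        intro i hi a ha hp j hj
        obtain ⟨S', hS'⟩ := Finset.dvd_prod_of_mem (fun j => (1 - C (lam j)⁻¹ * X : ℚ[X]))
          (Finset.mem_range.2 (show j < n + 1 by omega))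
        rw [hS, hS', mul_comm, map_mul, Module.End.mul_apply]
        have : ev E (1 - C (lam j)⁻¹ * X) ((L ^ j) a) = 0 := by
          rw [map_sub, map_one, map_mul, ev_C, ev_X, LinearMap.sub_apply, Module.End.one_apply,
            smul_mul_assoc, one_mul, LinearMap.smul_apply, heig i hi a ha hp j hj, smul_smul,
            ← Rat.cast_mul, inv_mul_cancel₀ (hlam0 j), Rat.cast_one, one_smul, sub_self]
        rw [this, map_zero])
    intro a ha
    have := key (n - c) (by omega) a ha 0 (by omega)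
    simpa using this
  refine ⟨ev E g * T, hR.cast (hR.mul (hR.ev hER g) hTR) (by ring), ?_⟩
  intro a ha
  have h1 : ev E (1 - S) a = a := by
    rw [map_sub, map_one, LinearMap.sub_apply, hev a ha, sub_zero, Module.End.one_apply]
  rw [hg, mul_comm, map_mul, ev_X, Module.End.mul_apply] at h1
  rw [Module.End.mul_apply, ← Module.End.mul_apply T, ← hE]
  exact h1

end Basic

section Ladder

variable [CharZero K]

/-- The family `F` consists of operators in the algebra, and `F c` is the inverse of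
`L ^ c : gr (n - c) → gr (n + c)`, for `r ≤ c ≤ n`. -/
structure Invs (gr : ℕ → Submodule K V) (R : ℤ → Module.End K V → Prop) (n : ℕ)
    (L : Module.End K V) (r : ℕ) (F : ℕ → Module.End K V) : Prop where
  mem : ∀ c, r ≤ c → c ≤ n → R (-c) (F c)
  inv : ∀ c, r ≤ c → c ≤ n → IsInv gr n L c (F c)

variable {F : ℕ → Module.End K V} {h : DirectSum.IsInternal gr} {r : ℕ}

/-- Vanishing in low degrees of the source. -/
lemma NT.source (hR : OpAlg gr R) (hL : R 1 L) (hF : Invs gr R n L r F) {t : ℤ}
    {u : Module.End K V} (hu : NT R h t u) {c e : ℕ} (hrc : r ≤ c) (hcn : c ≤ n) (hec : e ≤ c)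
    (hz : NumZero R h (t - c + e)) : ∀ a ∈ gr (n - c), u a = 0 := by
  intro a ha
  have h1 : u * (F c * L ^ e) = 0 :=
    hz _ ((hu.mul_right hR (hR.mul (hF.mem c hrc hcn) (hR.pow hL e))).cast (by ring))
  have h2 := (hF.inv c hrc hcn).1 a ha
  have h3 := congrArg (fun G => G ((L ^ (c - e)) a)) h1
  simp only [Module.End.mul_apply, LinearMap.zero_apply] at h3
  rwa [← Module.End.mul_apply (L ^ e), ← pow_add, show e + (c - e) = c by omega, h2] at h3

/-- Vanishing in high degrees of the target. -/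
lemma NT.target (hR : OpAlg gr R) (hL : R 1 L) (hHL : HardLef gr n L)
    (hF : Invs gr R n L r F) {t : ℤ}
    {u : Module.End K V} (hu : NT R h t u) {c e : ℕ} (hrc : r ≤ c) (hcn : c ≤ n) (hec : e ≤ c)
    (hz : NumZero R h (t - c + e)) : ∀ a, u a ∈ gr (n + c) → u a = 0 := by
  intro a ha
  have h1 : L ^ e * F c * u = 0 :=
    hz _ ((hu.mul_left hR (hR.mul (hR.pow hL e) (hF.mem c hrc hcn))).cast (by ring))
  obtain ⟨b, hb, hb'⟩ := surj_pow hHL hcn ha
  have h2 := (hF.inv c hrc hcn).1 b hb
  have h3 := congrArg (fun G => (L ^ (c - e)) (G a)) h1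
  simp only [Module.End.mul_apply, LinearMap.zero_apply, map_zero] at h3
  rw [← Module.End.mul_apply (L ^ (c - e)), ← pow_add, show c - e + e = c by omega, ← hb', h2,
    hb'] at h3
  exact h3

omit [CharZero K] in
/-- An operator of degree `t` is zero if it is zero on the graded pieces of low degree and if its
components in the graded pieces of high degree vanish. -/
lemma eq_zero_of_band (h : DirectSum.IsInternal gr) (hbd : ∀ i, 2 * n + 1 ≤ i → gr i = ⊥)
    {t : ℤ} {u : Module.End K V} (hu : IsHom gr (2 * t) u) {r : ℕ} (hr : (r : ℤ) ≤ t)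
    (h1 : ∀ c, r ≤ c → c ≤ n → ∀ a ∈ gr (n - c), u a = 0)
    (h2 : ∀ c, r ≤ c → c ≤ n → ∀ a, u a ∈ gr (n + c) → u a = 0) : u = 0 := by
  apply gr_ext h
  intro i a ha
  rw [LinearMap.zero_apply]
  by_cases hi : i + r ≤ n
  · exact h1 (n - i) (by omega) (by omega) a (by rwa [show n - (n - i) = i by omega])
  · have h3 := hu i a (by rw [grZ_natCast]; exact ha)
    obtain ⟨j, hj⟩ := Int.eq_ofNat_of_zero_le (show 0 ≤ (i : ℤ) + 2 * t by omega)
    rw [hj] at h3
    change u a ∈ grZ gr ((j : ℕ) : ℤ) at h3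
    rw [grZ_natCast] at h3
    have hj' : (i : ℤ) + 2 * t = (j : ℤ) := hj
    by_cases hj2 : j ≤ 2 * n
    · apply h2 (j - n) (by omega) (by omega)
      rwa [show n + (j - n) = j by omega]
    · rw [hbd j (by omega)] at h3
      exact (Submodule.mem_bot _).1 h3

/-- **One step up the ladder.** -/
theorem NumZero.succ (hR : OpAlg gr R) (hbd : ∀ i, 2 * n + 1 ≤ i → gr i = ⊥) (hL : R 1 L)
    (hHL : HardLef gr n L) (hr : 1 ≤ r) (hF : Invs gr R n L r F) {s : ℕ} (hrs : r ≤ s)
    (hz : NumZero R h s) : NumZero R h (s + 1 : ℕ) := by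
  intro u hu
  apply eq_zero_of_band h hbd (hR.hom hu.1) (r := r) (by push_cast; omega)
  · intro c hrc hcn
    exact hu.source hR hL hF hrc hcn (e := c - 1) (by omega)
      (by rwa [show ((s + 1 : ℕ) : ℤ) - c + (c - 1 : ℕ) = s by omega])
  · intro c hrc hcn
    exact hu.target hR hL hHL hF hrc hcn (e := c - 1) (by omega)
      (by rwa [show ((s + 1 : ℕ) : ℤ) - c + (c - 1 : ℕ) = s by omega])

/-- From degree zero. -/
theorem NumZero.of_zero (hR : OpAlg gr R) (hbd : ∀ i, 2 * n + 1 ≤ i → gr i = ⊥) (hL : R 1 L)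
    (hHL : HardLef gr n L) (hF : Invs gr R n L r F)
    (hz : NumZero R h 0) : NumZero R h r := by
  intro u hu
  apply eq_zero_of_band h hbd (hR.hom hu.1) (r := r) le_rfl
  · intro c hrc hcn
    exact hu.source hR hL hF hrc hcn (e := c - r) (by omega)
      (by rwa [show (r : ℤ) - c + (c - r : ℕ) = 0 by omega])
  · intro c hrc hcn
    exact hu.target hR hL hHL hF hrc hcn (e := c - r) (by omega)
      (by rwa [show (r : ℤ) - c + (c - r : ℕ) = 0 by omega])

theorem NumZero.up (hR : OpAlg gr R) (hbd : ∀ i, 2 * n + 1 ≤ i → gr i = ⊥) (hL : R 1 L)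
    (hHL : HardLef gr n L) (hr : 1 ≤ r) (hF : Invs gr R n L r F)
    (hz : NumZero R h r) : ∀ s, r ≤ s → NumZero R h s := by
  intro s hs
  induction s, hs using Nat.le_induction with
  | base => exact hz
  | succ s hs ih => exact ih.succ hR hbd hL hHL hr hF hs

/-- Negative degrees. -/
theorem NumZero.neg [Module.Finite K V] (hR : OpAlg gr R)
    (hL : R 1 L) {f : Module.End K V} (t : Sl2 (wt h n) L f) {s : ℕ}
    (hz : NumZero R h s) : NumZero R h (-s) := by
  intro u hu
  have hLh : IsHom gr (2 * 1) L := hR.hom hL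
  have hu1 := hR.hom hu.1
  apply adL_inj h t (r := s)
  · rwa [show (2 : ℤ) * -s = -(2 * s : ℕ) by push_cast; ring] at hu1
  · apply hz
    refine ⟨hR.cast (adL_mem hR hL hu.1 (2 * s)) (by push_cast; ring), ?_⟩
    intro y hy
    rw [str_adL_even h hLh]
    exact hu.2 _ (hR.cast (adL_mem hR hL hy (2 * s)) (by push_cast; ring))

/-- **Descending the ladder** in the absence of primitive elements near the middle. -/
theorem NumZero.down (hR : OpAlg gr R) (hbd : ∀ i, 2 * n + 1 ≤ i → gr i = ⊥) (hL : R 1 L)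
    (hHL : HardLef gr n L) {s : ℕ}
    (hprim : ∀ i ≤ n, n ≤ i + s → ∀ a ∈ gr i, (L ^ (n - i + 1)) a = 0 → a = 0)
    (hz : NumZero R h (s + 1 : ℕ)) : NumZero R h s := by
  intro u hu
  have hLh : IsHom gr 2 L := by simpa using hR.hom hL
  have h1 : u * L = 0 := hz _ ((hu.mul_right hR hL).cast (by push_cast; ring))
  have h2 : L * u = 0 := hz _ ((hu.mul_left hR hL).cast (by push_cast; ring))
  apply LinearMap.ext
  intro x
  rw [LinearMap.zero_apply]
  refine lef_induction' h hLh hbd hHL (p := fun x => u x = 0) ?_ ?_ x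
  · intro a b ha hb
    rw [map_add, ha, hb, add_zero]
  · intro i hi a ha hp j
    rcases Nat.eq_zero_or_pos j with rfl | hj
    · rw [pow_zero, Module.End.one_apply]
      by_cases his : n ≤ i + s
      · rw [hprim i hi his a ha hp, map_zero]
      · -- the target is in degree `i + 2 s < n + s`
        have h3 := (hR.hom hu.1).apply_mem (d := 2 * s) (by simpa using ha)
        have h4 : L (u a) = 0 := congrArg (fun G => G a) h2
        by_cases hin : i + 2 * s ≤ n
        · -- hard Lefschetz: if `i + 2 s < n` then `L` is injective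
          by_cases hin2 : i + 2 * s = n
          · apply hprim (i + 2 * s) hin (by omega) _ h3
            rw [pow_succ, Module.End.mul_apply, h4, map_zero]
          · apply (hHL (i + 2 * s) hin).1 _ h3
            rw [show n - (i + 2 * s) = (n - (i + 2 * s) - 1) + 1 by omega, pow_succ,
              Module.End.mul_apply, h4, map_zero]
        · -- the kernel of `L` in degree `n + w` is `L ^ w` of the primitive elements
          obtain ⟨b, hb, hb'⟩ := surj_pow hHL (c := i + 2 * s - n) (by omega)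
            (by rw [show n + (i + 2 * s - n) = i + 2 * s by omega]; exact h3)
          have h5 : b = 0 := by
            apply hprim _ (by omega) (by omega) b hb
            rw [show n - (n - (i + 2 * s - n)) = i + 2 * s - n by omega, pow_succ',
              Module.End.mul_apply, hb', h4]
          rw [← hb', h5, map_zero]
    · obtain ⟨j, rfl⟩ : ∃ j', j = j' + 1 := ⟨j - 1, by omega⟩
      rw [pow_succ', Module.End.mul_apply]
      exact congrArg (fun G => G ((L ^ j) a)) h1

/-- **Concentration.** If there are no numerically trivial operators of degree `s` for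
`|s| ≥ r`, then the numerically trivial operators are concentrated near the middle. -/
theorem NT.band (hR : OpAlg gr R) (hbd : ∀ i, 2 * n + 1 ≤ i → gr i = ⊥) (hL : R 1 L)
    (hHL : HardLef gr n L) (hF : Invs gr R n L r F)
    (hz : ∀ s : ℕ, r ≤ s → NumZero R h s) (hz' : ∀ s : ℕ, r ≤ s → NumZero R h (-s))
    {t : ℤ} {u : Module.End K V} (hu : NT R h t u) :
    (∀ i : ℕ, (r : ℤ) ≤ |(i : ℤ) + t - n| → ∀ a ∈ gr i, u a = 0) ∧
    ∀ e : ℕ, (r : ℤ) ≤ t + e → u * L ^ e = 0 ∧ L ^ e * u = 0 := by
  have hLh : IsHom gr 2 L := by simpa using hR.hom hL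
  have hpow : ∀ e : ℕ, (r : ℤ) ≤ t + e → u * L ^ e = 0 ∧ L ^ e * u = 0 := by
    intro e he
    obtain ⟨s, hs⟩ := Int.eq_ofNat_of_zero_le (show 0 ≤ t + e by omega)
    have hs' : t + e = (s : ℤ) := hs
    have hzs := hz s (by omega)
    constructor
    · exact hzs _ ((hu.mul_right hR (hR.pow hL e)).cast (by rw [mul_one]; exact hs'))
    · exact hzs _ ((hu.mul_left hR (hR.pow hL e)).cast (by rw [mul_one]; exact hs'))
  refine ⟨?_, hpow⟩
  intro i hi a ha
  by_cases hi2 : 2 * n < i
  · rw [hbd i (by omega)] at ha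
    rw [(Submodule.mem_bot _).1 ha, map_zero]
  have h3 := (hR.hom hu.1) i a (by rw [grZ_natCast]; exact ha)
  by_cases hneg : (i : ℤ) + 2 * t < 0
  · rw [grZ_of_neg hneg] at h3
    exact (Submodule.mem_bot _).1 h3
  obtain ⟨j, hj⟩ := Int.eq_ofNat_of_zero_le (not_lt.1 hneg)
  rw [hj] at h3
  change u a ∈ grZ gr ((j : ℕ) : ℤ) at h3
  rw [grZ_natCast] at h3
  have hj' : (i : ℤ) + 2 * t = (j : ℤ) := hj
  by_cases hj2 : 2 * n < j
  · rw [hbd j (by omega)] at h3
    exact (Submodule.mem_bot _).1 h3
  rcases le_abs.1 hi with hB | hA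
  · -- high degrees
    by_cases ht : 0 ≤ t
    · obtain ⟨s, hs⟩ := Int.eq_ofNat_of_zero_le (show 0 ≤ (j : ℤ) - n - t by omega)
      have hs' : (j : ℤ) - n - t = (s : ℤ) := hs
      apply hu.target hR hL hHL hF (c := j - n) (e := 0) (by omega) (by omega) (by omega)
      · rw [show t - ((j - n : ℕ) : ℤ) + (0 : ℕ) = -(s : ℤ) by omega]
        exact hz' s (by omega)
      · rwa [show n + (j - n) = j by omega]
    · obtain ⟨e, he⟩ := Int.eq_ofNat_of_zero_le (show 0 ≤ (r : ℤ) - t by omega)
      have he' : (r : ℤ) - t = (e : ℤ) := he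
      obtain ⟨b, hb, hb'⟩ := surj_pow hHL (c := i - n) (by omega)
        (by rw [show n + (i - n) = i by omega]; exact ha)
      have h5 := congrArg (fun G => G ((L ^ (i - n - e)) b)) (hpow e (by omega)).1
      simp only [Module.End.mul_apply, LinearMap.zero_apply] at h5
      rwa [← Module.End.mul_apply (L ^ e), ← pow_add, show e + (i - n - e) = i - n by omega,
        hb'] at h5
  · -- low degrees
    by_cases ht : 0 ≤ t
    · obtain ⟨s, hs⟩ := Int.eq_ofNat_of_zero_le (show 0 ≤ (n : ℤ) - i - t by omega)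
      have hs' : (n : ℤ) - i - t = (s : ℤ) := hs
      apply hu.source hR hL hF (c := n - i) (e := 0) (by omega) (by omega) (by omega)
      · rw [show t - ((n - i : ℕ) : ℤ) + (0 : ℕ) = -(s : ℤ) by omega]
        exact hz' s (by omega)
      · rwa [show n - (n - i) = i by omega]
    · obtain ⟨e, he⟩ := Int.eq_ofNat_of_zero_le (show 0 ≤ (r : ℤ) - t by omega)
      have he' : (r : ℤ) - t = (e : ℤ) := he
      have h5 := congrArg (fun G => G a) (hpow e (by omega)).2
      simp only [Module.End.mul_apply, LinearMap.zero_apply] at h5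
      apply (hHL j (by omega)).1 _ h3
      rw [show n - j = (n - j - e) + e by omega, pow_add, Module.End.mul_apply, h5, map_zero]

end Ladder

end Pool.Agent.X264
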