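import Pool.Agent.H447R3.DegDefs
import Pool.Agent.W537.OneCycleDefs

/-!
# Numerically trivial cycles and primitive classes: definitions
-/

open CategoryTheory AlgebraicGeometry

universe u v

namespace Pool.Agent.X264

open Pool.Agent.H914 VarClass Obj WeilCohomology Pool.Agent.H447 Pool.Agent.W537

section Alg

variable {K : Type*} [Field K] {V : Type*} [AddCommGroup V] [Module K V]

/-- The operator `T` is zero on the graded piece `gr i`. -/
def ZeroOn (gr : ℕ → Submodule K V) (i : ℕ) (T : V →ₗ[K] V) : Prop :=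
  ∀ a ∈ gr i, T a = 0

/-- The operator `T` is injective on the graded piece `gr i`. -/
def InjectiveOn (gr : ℕ → Submodule K V) (i : ℕ) (T : V →ₗ[K] V) : Prop :=
  ∀ a ∈ gr i, T a = 0 → a = 0

/-- The two compositions of the operators `S` and `T` are zero. -/
def Annihilate (S T : V →ₗ[K] V) : Prop :=
  ∀ a, S (T a) = 0 ∧ T (S a) = 0

end Alg

variable {k : Type u} [Field k] {𝒱 : VarClass k}

/-- `z` is a cycle of codimension `q` on `Y` all of whose intersection numbers with the cycles of
codimension `dim Y - q` vanish. -/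
def NumTrivial (ops : CycleOps 𝒱) (Y : 𝒱.Obj) (q : ℕ) (z : Y.Cycles) : Prop :=
  Y.IsCyc q z ∧ ∀ w, Y.IsCyc (Y.dim - q) w → Y.V.degCycle (ops.mul z w) = 0

variable {ops : CycleOps 𝒱}

/-- There are no nonzero primitive classes of degree `i` on `X`: no nonzero `a` in `H^i(X)` with
`ξ ^ (n - i + 1) a = 0`, where `n = dim X` and `ξ` is the class of `D`. -/
def NoPrimitive (W : WeilCohomology.{u, v} ops) (X : 𝒱.Obj) (D : X.Cycles) (i : ℕ) : Prop :=
  InjectiveOn (W.gr X) i (lefPow W X D (X.dim - i + 1))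

/-- The conjecture D for `X × X` in the codimensions `n + s` and `n - s` for `r ≤ s ≤ n`, where
`n = dim X`. -/
def DSquareFrom (W : WeilCohomology.{u, v} ops) (X : 𝒱.Obj) (r : ℕ) : Prop :=
  ∀ s, r ≤ s → s ≤ X.dim →
    HomEqNumIn W (X.prod X) (X.dim + s) ∧ HomEqNumIn W (X.prod X) (X.dim - s)

/-- The inverses of the Lefschetz isomorphisms `H^i(X) → H^(2n - i)(X)` are algebraic for
`i ≤ n - r`, where `n = dim X`. -/
def InversesTo (W : WeilCohomology.{u, v} ops) (X : 𝒱.Obj) (D : X.Cycles) (r : ℕ) : Prop :=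
  ∀ i, i + r ≤ X.dim → ∃ z, InvertsLefschetz W X D i z

/-- For `i ≤ n - r`, where `n = dim X`, the inverse of the Lefschetz isomorphism
`H^i(X) → H^(2n - i)(X)`, extended by zero to the other degrees, and the Kunneth projectors of
degree `i` and `2n - i` are induced by algebraic cycles. -/
def ProjectorsTo (W : WeilCohomology.{u, v} ops) (X : 𝒱.Obj) (D : X.Cycles) (r : ℕ) : Prop :=
  ∀ i, i + r ≤ X.dim → (∃ z, InducesInverse W X D i z) ∧
    ∀ j, (j = i ∨ j = 2 * X.dim - i) →
      ∃ z, (X.prod X).IsCyc X.dim z ∧ InducesProjector W X j z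

/-- The failure of the conjecture D for `X × X` is concentrated in the middle: a numerically
trivial cycle of codimension `p` on `X × X` acts as zero on `H^i(X)` if `|i + p - 2n| ≥ r`, and its
compositions with the cup product with `ξ ^ e` are zero if `p + e ≥ n + r`; here `n = dim X` and
`ξ` is the class of `D`. -/
def Concentrated (W : WeilCohomology.{u, v} ops) (X : 𝒱.Obj) (D : X.Cycles) (r : ℕ) : Prop :=
  ∀ p ≤ 2 * X.dim, ∀ z, NumTrivial ops (X.prod X) p z →
    (∀ i, (i + p + r ≤ 2 * X.dim ∨ 2 * X.dim + r ≤ i + p) →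
      ZeroOn (W.gr X) i (cycOp W X z)) ∧
    ∀ e, X.dim + r ≤ p + e → Annihilate (cycOp W X z) (lefPow W X D e)

end Pool.Agent.X264
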