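import Pool.Agent.X264.LadderA
import Pool.Agent.X264.LadderDefs

/-!
# The ladder of codimensions: the geometric part
-/

open CategoryTheory AlgebraicGeometry Finset

universe u v

namespace Pool.Agent.X264

open Pool.Agent.H914 VarClass Obj WeilCohomology Pool.Agent.H447 Pool.Agent.W537

variable {k : Type u} [Field k] {𝒱 : VarClass k} {ops : CycleOps 𝒱}
  {W : WeilCohomology.{u, v} ops} {X : 𝒱.Obj}

/-- Numerically trivial cycles induce numerically trivial operators. -/
lemma NumTrivial.nt {q : ℕ} (hq : q ≤ 2 * X.dim) {z : (X.prod X).Cycles}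
    (hz : NumTrivial ops (X.prod X) q z) :
    NT (ROp W X) (W.isInternal X) ((q : ℤ) - X.dim) (W.corr (W.cl _ z)) := by
  refine ⟨⟨fun W => W.corr (W.cl _ z), Or.inl ⟨q, by omega, z, hz.1, fun _ => rfl⟩, rfl⟩, ?_⟩
  rintro y ⟨Y, ⟨r, hr, w, hw, hY⟩ | ⟨hd, -⟩, rfl⟩
  · obtain rfl : r = X.dim + X.dim - q := by omega
    have hnum := hz.2
    rw [dim_prod] at hnum
    rw [hY, str_eq_deg (by omega) hz.1 hw, hnum _ (ops.pull_mem _ hw), Rat.cast_zero]
  · omega

/-- Numerically trivial operators are induced by numerically trivial cycles. -/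
lemma NT.cyc {d : ℤ} {u : Module.End W.K (W.H X)} (hu : NT (ROp W X) (W.isInternal X) d u)
    {q : ℕ} (hq : q ≤ 2 * X.dim) (hd : (q : ℤ) = X.dim + d) :
    ∃ z, NumTrivial ops (X.prod X) q z ∧ W.corr (W.cl _ z) = u := by
  obtain ⟨⟨Y, ⟨r, hr, z, hz, hY⟩ | ⟨hd', -⟩, rfl⟩, h0⟩ := hu
  · obtain rfl : r = q := by omega
    refine ⟨z, ⟨hz, ?_⟩, (hY W).symm⟩
    intro w hw
    rw [dim_prod] at hw
    have h2 := h0 (W.corr (W.cl _ (ops.pull (swap X X) w)))
      ⟨fun W => W.corr (W.cl _ (ops.pull (swap X X) w)), Or.inl ⟨X.dim + X.dim - r, by omega,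
        ops.pull (swap X X) w, ops.pull_mem _ hw, fun _ => rfl⟩, rfl⟩
    rw [hY, ← mul_assoc, W.cl_pull, ← tr_mul_eq_trace (W.cl_mem hz),
      tr_mul_cl hz hw (by rw [dim_prod]; omega)] at h2
    exact_mod_cast h2
  · omega

/-- D for `X × X` in one codimension in terms of operators. -/
lemma homEqNumIn_iff {q : ℕ} (hq : q ≤ 2 * X.dim) {d : ℤ} (hd : (q : ℤ) = X.dim + d) :
    HomEqNumIn W (X.prod X) q ↔ NumZero (ROp W X) (W.isInternal X) d := by
  constructor
  · intro h u hu
    obtain ⟨z, hz, rfl⟩ := NT.cyc hu hq hd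
    rw [h z hz.1 hz.2, corr_zero]
  · intro h z hz hnum
    exact corr_inj (h _ ((NumTrivial.nt hq ⟨hz, hnum⟩).cast (by omega)))

/-- The operators which invert powers of `L`. -/
lemma exists_invs {D : X.Cycles} (hD : X.IsCyc 1 D) {r : ℕ} (hrn : r ≤ X.dim)
    (hz : ∀ i, i + r ≤ X.dim → ∃ z, InvertsLefschetz W X D i z) :
    ∃ F, Invs (W.gr X) (ROp W X) X.dim (LL D W) r F := by
  obtain ⟨F, hF, hF'⟩ := exists_system hD (d := X.dim - r) (by omega) W
    (fun i hi => hz i (by omega))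
  have key : ∀ i ≤ X.dim - r, IsInv (W.gr X) X.dim (LL D W) (X.dim - i) (F i W) := by
    intro i
    induction i using Nat.strong_induction_on with
    | _ i ih =>
      intro hi
      exact (hF' W i hi (fun l hl => ih l hl (by omega))).2 le_rfl
  refine ⟨fun c => F (X.dim - c) W, ?_, ?_⟩
  · intro c hrc hcn
    have := hF (X.dim - c) (by omega)
    rw [show X.dim - (X.dim - c) = c by omega] at this
    exact ⟨_, this, rfl⟩
  · intro c hrc hcn
    have := key (X.dim - c) (by omega)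
    rwa [show X.dim - (X.dim - c) = c by omega] at this

lemma inverts_of_theta {D : X.Cycles} (hD : X.IsCyc 1 D) {i : ℕ} (hi : i ≤ X.dim)
    {θ : Module.End W.K (W.H X)} (hθ : ROp W X (-((X.dim - i : ℕ) : ℤ)) θ)
    (h : ∀ a ∈ W.gr X (X.dim - (X.dim - i)), θ ((LL D W ^ (X.dim - i)) a) = a) :
    ∃ z, InvertsLefschetz W X D i z ∧ W.corr (W.cl _ z) = θ := by
  obtain ⟨Y, hY, rfl⟩ := hθ
  obtain ⟨z, hz, hz'⟩ := cyc_of_realized hi hY
  refine ⟨z, (inverts_iff hD W hi).2 ⟨hz, ?_⟩, (hz' W).symm⟩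
  rw [← hz' W]
  exact h

/-- **Inverse Lefschetz operators and Kunneth projectors from D in one codimension.** -/
theorem inverts_of_homEqNumIn {D : X.Cycles} (hD : X.IsCyc 1 D) (hHL : HardLefschetz W X D)
    {r : ℕ} (hr : 1 ≤ r) (hrn : r ≤ X.dim) (h : HomEqNumIn W (X.prod X) (X.dim + r)) :
    InversesTo W X D r := by
  intro i hi
  have hLh : IsHom (W.gr X) 2 (LL D W) := LL_isHom hD W
  obtain ⟨f, t, hf, hf'⟩ := exists_sl2 (W.isInternal X) hLh W_hbd hHL
  have hN := (homEqNumIn_iff (W := W) (X := X) (q := X.dim + r) (by omega) (d := r)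
    (by push_cast; rfl)).1 h
  have hfr := f_pow_mem rop_opAlg (W.isInternal X) rop_str (rop_mulLeft hD) t hf r
    (fun u hu h0 => hN u ⟨hu, h0⟩)
  obtain ⟨θ, hθ, hθ'⟩ := theta_of_f_pow rop_opAlg W_hbd (rop_mulLeft hD) hHL hf' hr hfr
    (c := X.dim - i) (by omega) (by omega)
  obtain ⟨z, hz, -⟩ := inverts_of_theta hD (by omega) hθ hθ'
  exact ⟨z, hz⟩

/-- The inverse operators supported in one degree and the projectors. -/
theorem exists_cycles {D : X.Cycles} (hD : X.IsCyc 1 D) {r : ℕ} {F : ℕ → Module.End W.K (W.H X)}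
    (hF : Invs (W.gr X) (ROp W X) X.dim (LL D W) r F) : ProjectorsTo W X D r := by
  intro i hi
  have hm := hF.mem (X.dim - i) (by omega) (by omega)
  have hv := hF.inv (X.dim - i) (by omega) (by omega)
  have hpr : ∀ j, ROp W X 0 (proj (W.isInternal X) j) →
      ∃ z, (X.prod X).IsCyc X.dim z ∧ InducesProjector W X j z := by
    rintro j ⟨Y, ⟨q, hq, z, hz, hY⟩ | ⟨hd, _⟩, hY'⟩
    · obtain rfl : q = X.dim := by omega
      refine ⟨z, hz, ?_⟩
      intro l a ha
      rw [← hY W, hY']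
      split_ifs with hj
      · subst hj; exact proj_same _ ha
      · exact proj_ne _ ha hj
    · omega
  refine ⟨?_, ?_⟩
  · obtain ⟨z, hz, hz'⟩ := inverts_of_theta hD (by omega) hm hv.1
    refine ⟨z, hz, ?_⟩
    intro l hl a ha
    rw [cycOp, hz']
    exact hv.2 l (by omega) a ha
  · rintro j (rfl | rfl)
    · apply hpr
      have h2 := isInv_mul_pow hD W (by omega) hv
      rw [show X.dim - (X.dim - j) = j by omega] at h2
      rw [← h2]
      exact rop_opAlg.cast (rop_opAlg.mul hm (rop_opAlg.pow (rop_mulLeft hD) _)) (by ring)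
    · apply hpr
      have h2 := pow_mul_isInv hD W (by omega) hv
      rw [show X.dim + (X.dim - i) = 2 * X.dim - i by omega] at h2
      rw [← h2]
      exact rop_opAlg.cast (rop_opAlg.mul (rop_opAlg.pow (rop_mulLeft hD) _) hm) (by ring)

/-- D for `X` in codimension `j ≥ r` from D for `X × X` in codimension `n + r`. -/
theorem homEqNumIn_of_square {D : X.Cycles} (hD : X.IsCyc 1 D) (hHL : HardLefschetz W X D)
    {r : ℕ} (h : HomEqNumIn W (X.prod X) (X.dim + r)) {j : ℕ} (hrj : r ≤ j) (hj : j ≤ X.dim) :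
    HomEqNumIn W X j := by
  intro z hz hnum
  set m := X.dim + r - j with hm
  set w' : X.Cycles := divPow ops D m X.V.fundCycle with hw'
  have hw'c : X.IsCyc m w' := by
    have := divPow_mem (ops := ops) hD m (SmVar.fundCycle_mem X.V)
    rwa [zero_add] at this
  have hclw : W.cl X w' = (LL D W ^ m) 1 := by rw [hw', cl_divPow, W.cl_fund]
  set Z : (X.prod X).Cycles := ops.mul (ops.pull (fst X X) z) (ops.pull (snd X X) w') with hZ
  have hZc : (X.prod X).IsCyc (X.dim + r) Z := by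
    have := ops.mul_mem (ops.pull_mem (fst X X) hz) (ops.pull_mem (snd X X) hw'c)
    rwa [show j + m = X.dim + r by omega] at this
  have hclZ : W.cl _ Z = W.map (fst X X) (W.cl X z) * W.map (snd X X) (W.cl X w') := by
    rw [hZ, W.cl_mul, W.cl_pull, W.cl_pull]
  have hZ0 : W.cl _ Z = 0 := by
    apply h Z hZc
    intro w hw
    rw [dim_prod] at hw
    set y : X.Cycles := ops.push (fst X X) (ops.mul (ops.pull (snd X X) w') w) with hy
    have hyc : X.IsCyc (X.dim - j) y := by
      apply ops.push_mem _ (ops.mul_mem (ops.pull_mem _ hw'c) hw)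
      rw [dim_prod]
      omega
    have h1 := hnum y hyc
    have h2 : W.tr X (W.cl X z * W.cl X y) = W.tr (X.prod X) (W.cl _ Z * W.cl _ w) := by
      rw [hy, W.cl_push, W.cl_mul, W.cl_pull, W.even_comm (W.cl_mem hz), W.tr_push,
        ← W.even_comm (W.map_mem _ (W.cl_mem hz)), hclZ, mul_assoc]
    rw [tr_mul_cl hz hyc (by omega), tr_mul_cl hZc hw (by rw [dim_prod]; omega), h1,
      Rat.cast_zero] at h2
    exact_mod_cast h2.symm
  by_cases h1 : (1 : W.H X) = 0
  · rw [← mul_one (W.cl X z), h1, mul_zero]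
  have hne : W.cl X w' ≠ 0 := by
    intro h0
    apply h1
    apply (hHL 0 (Nat.zero_le _)).1 1 (W.one_mem X)
    rw [Nat.sub_zero, show X.dim = (X.dim - m) + m by omega, pow_add, Module.End.mul_apply]
    rw [hclw] at h0
    rw [h0, map_zero]
  obtain ⟨b, hb⟩ : ∃ b, W.tr X (W.cl X w' * b) ≠ 0 := by
    by_contra hcon
    push Not at hcon
    exact hne (W.nondeg _ hcon)
  apply W.nondeg
  intro c
  have h2 := W.tr_prod (X := X) (Y := X) (W.cl X z * c) (W.cl X w' * b)
  have h3 : W.map (fst X X) (W.cl X z * c) * W.map (snd X X) (W.cl X w' * b) =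
      W.cl _ Z * (W.map (fst X X) c * W.map (snd X X) b) := by
    rw [map_mul, map_mul, hclZ, mul_assoc, mul_assoc,
      ← mul_assoc (W.map (fst X X) c) (W.map (snd X X) (W.cl X w')),
      ← W.even_comm (W.map_mem (snd X X) (W.cl_mem hw'c)) (W.map (fst X X) c)]
    simp only [mul_assoc]
  rw [h3, hZ0, zero_mul, map_zero] at h2
  exact (mul_eq_zero.1 h2.symm).resolve_right hb

/-- D for `X` in low codimensions from D in high codimensions. -/
theorem homEqNumIn_low {D : X.Cycles} (hD : X.IsCyc 1 D) (hHL : HardLefschetz W X D)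
    {j : ℕ} (hj : 2 * j ≤ X.dim) (h : HomEqNumIn W X (X.dim - j)) :
    HomEqNumIn W X j := by
  intro z hz hnum
  have hzc := divPow_mem (ops := ops) hD (X.dim - 2 * j) hz
  rw [show j + (X.dim - 2 * j) = X.dim - j by omega] at hzc
  have h0 : W.cl X (divPow ops D (X.dim - 2 * j) z) = 0 := by
    apply h _ hzc
    intro w hw
    rw [show X.dim - (X.dim - j) = j by omega] at hw
    have hwc := divPow_mem (ops := ops) hD (X.dim - 2 * j) hw
    rw [show j + (X.dim - 2 * j) = X.dim - j by omega] at hwc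
    have h2 : W.tr X (W.cl X (divPow ops D (X.dim - 2 * j) z) * W.cl X w) =
        W.tr X (W.cl X z * W.cl X (divPow ops D (X.dim - 2 * j) w)) := by
      rw [cl_divPow, cl_divPow, LinearMap.pow_mulLeft, LinearMap.mulLeft_apply,
        LinearMap.mulLeft_apply, ← mul_assoc (W.cl X z), W.even_comm (W.cl_mem hz)]
    rw [tr_mul_cl hzc hw (by omega), tr_mul_cl hz hwc (by omega), hnum _ hwc, Rat.cast_zero] at h2
    exact_mod_cast h2
  rw [cl_divPow] at h0
  exact (hHL (2 * j) hj).1 _ (W.cl_mem hz) h0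

end Pool.Agent.X264
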