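import Pool.Agent.H447R3.DegDefs
import Pool.Agent.W537.OneCycleDefs

/-!
# The ring of correspondences: definitions
-/

open CategoryTheory AlgebraicGeometry

universe u v

namespace Pool.Agent.X264

open Pool.Agent.H914 VarClass Obj WeilCohomology Pool.Agent.W537

variable {k : Type u} [Field k] {𝒱 : VarClass k} {ops : CycleOps 𝒱}

/-- The ring of correspondences of `X` modulo homological equivalence: the ring of operators on
`H(X)` generated by the operators induced by the algebraic cycles on `X × X` of all codimensions,
with rational coefficients. -/
noncomputable def corrRing (W : WeilCohomology.{u, v} ops) (X : 𝒱.Obj) :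
    Subring (Module.End W.K (W.H X)) :=
  Subring.closure {T | ∃ p z, (X.prod X).IsCyc p z ∧ cycOp W X z = T}

/-- The module of the algebraic classes on `X` over the ring of correspondences: the submodule of
`H(X)` generated by the classes of the algebraic cycles of all codimensions. -/
noncomputable def classModule (W : WeilCohomology.{u, v} ops) (X : 𝒱.Obj) :
    Submodule (corrRing W X) (W.H X) :=
  Submodule.span _ {a | ∃ p z, X.IsCyc p z ∧ W.cl X z = a}

/-- `X` has a zero-cycle of nonzero degree. -/
def HasZeroCycle (X : 𝒱.Obj) : Prop :=
  ∃ z, X.IsCyc X.dim z ∧ X.V.degCycle z ≠ 0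

end Pool.Agent.X264
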