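import Pool.Agent.X264.LadderA

/-!
# Semisimple rings of operators and hard Lefschetz: the abstract argument
-/

open Finset

namespace Pool.Agent.X264

open Pool.Agent.H914 Pool.Agent.H447 Pool.Agent.W537

variable {K : Type*} [Field K] {V : Type*} [AddCommGroup V] [Module K V]
variable {gr : ℕ → Submodule K V} {n : ℕ} {L : Module.End K V}

lemma proj_pow_L (h : DirectSum.IsInternal gr) (hL : IsHom gr 2 L) (d m : ℕ) (y : V) :
    proj h (d + 2 * m) ((L ^ m) y) = (L ^ m) (proj h d y) := by
  refine gr_induction h (p := fun y => proj h (d + 2 * m) ((L ^ m) y) = (L ^ m) (proj h d y))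
    ?_ ?_ y
  · intro e a ha
    have h1 := pow_L_mem hL ha m
    by_cases he : e = d
    · subst he
      rw [proj_same h ha, proj_same h h1]
    · rw [proj_ne h ha he, proj_ne h h1 (by omega), map_zero]
  · intro a b ha hb
    simp only [map_add, ha, hb]

/-- Kernels and images of the powers of `L`: homogeneous elements. -/
lemma jordan_hom (hL : IsHom gr 2 L) (hbd : ∀ i, 2 * n + 1 ≤ i → gr i = ⊥)
    (hHL : HardLef gr n L) {d k : ℕ} (hdk : d + k ≠ n) {y : V} (hy : y ∈ gr d)
    (h0 : (L ^ (k + 1)) y = 0) : ∃ z, (L ^ k) y = (L ^ (k + 1)) z := by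
  by_cases h1 : d + k < n
  · have h2 : y = 0 := by
      apply (hHL d (by omega)).1 y hy
      rw [show n - d = (n - d - (k + 1)) + (k + 1) by omega, pow_add, Module.End.mul_apply, h0,
        map_zero]
    exact ⟨0, by rw [h2, map_zero, map_zero]⟩
  · have h2 := pow_L_mem hL hy k
    by_cases h3 : d + 2 * k ≤ 2 * n
    · obtain ⟨b, hb, hb'⟩ := surj_pow hHL (c := d + 2 * k - n) (by omega)
        (by rw [show n + (d + 2 * k - n) = d + 2 * k by omega]; exact h2)
      refine ⟨(L ^ (d + k - n - 1)) b, ?_⟩
      rw [← hb', ← Module.End.mul_apply (L ^ (k + 1)), ← pow_add]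
      congr 2
      omega
    · rw [hbd _ (by omega)] at h2
      exact ⟨0, by rw [(Submodule.mem_bot _).1 h2, map_zero]⟩

/-- Kernels and images of the powers of `L`: elements of given parity. -/
lemma jordan_par [CharZero K] (h : DirectSum.IsInternal gr) (hL : IsHom gr 2 L)
    (hbd : ∀ i, 2 * n + 1 ≤ i → gr i = ⊥)
    (hHL : HardLef gr n L) {a k : ℕ} (hak : Odd (k + n + a)) {y : V}
    (hy : par h y = (-1 : K) ^ a • y) (h0 : (L ^ (k + 1)) y = 0) :
    ∃ z, (L ^ k) y = (L ^ (k + 1)) z := by
  have hcomp : ∀ d, ∃ z, (L ^ k) (proj h d y) = (L ^ (k + 1)) z := by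
    intro d
    by_cases hd0 : proj h d y = 0
    · exact ⟨0, by rw [hd0, map_zero, map_zero]⟩
    · have h1 : par h (proj h d y) = (-1 : K) ^ d • proj h d y := by
        rw [par, scal_apply _ _ (proj_mem h d y)]
      have h2 : par h (proj h d y) = (-1 : K) ^ a • proj h d y := by
        have h3 : par h * proj h d = proj h d * par h := by
          rw [par, proj, scal_mul, scal_mul]
          congr 1
          funext i
          ring
        rw [← Module.End.mul_apply, h3, Module.End.mul_apply, hy, map_smul]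
      have h4 : (-1 : K) ^ d = (-1 : K) ^ a := by
        have h5 : ((-1 : K) ^ d - (-1 : K) ^ a) • proj h d y = 0 := by
          rw [sub_smul, ← h1, ← h2, sub_self]
        exact sub_eq_zero.1 ((smul_eq_zero.1 h5).resolve_right hd0)
      have h6 : Even d ↔ Even a := by
        constructor
        · intro he
          by_contra ho
          rw [he.neg_one_pow, (Nat.not_even_iff_odd.1 ho).neg_one_pow] at h4
          norm_num at h4
        · intro he
          by_contra ho
          rw [he.neg_one_pow, (Nat.not_even_iff_odd.1 ho).neg_one_pow] at h4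
          norm_num at h4
      apply jordan_hom hL hbd hHL _ (proj_mem h d y)
      · rw [← proj_pow_L h hL, h0, map_zero]
      · intro hdk
        subst hdk
        rcases Nat.even_or_odd a with ha | ha <;> rcases Nat.even_or_odd d with hd | hd
        · apply Nat.not_even_iff_odd.2 hak
          have : k + (d + k) + a = 2 * k + (d + a) := by ring
          rw [this]
          exact (even_two_mul k).add (hd.add ha)
        · exact (Nat.not_even_iff_odd.2 hd) (h6.2 ha)
        · exact (Nat.not_even_iff_odd.2 ha) (h6.1 hd)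
        · apply Nat.not_even_iff_odd.2 hak
          have : k + (d + k) + a = 2 * k + (d + a) := by ring
          rw [this]
          exact (even_two_mul k).add (hd.add_odd ha)
  choose z hz using hcomp
  have hsum : ∑ d ∈ range (2 * n + 1), proj h d y = y := by
    have h1 := congrArg (fun F => F y) (sum_proj h hbd)
    simpa [LinearMap.sum_apply] using h1
  refine ⟨∑ d ∈ range (2 * n + 1), z d, ?_⟩
  rw [map_sum, ← Finset.sum_congr rfl (fun d _ => hz d), ← map_sum, hsum]

lemma half_idem [CharZero K] {ε : Module.End K V} (hε : ε * ε = 1) {σ : K} (hσ : σ * σ = 1) :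
    ((1 / 2 : K) • (1 + σ • ε)) * ((1 / 2 : K) • (1 + σ • ε)) = (1 / 2 : K) • (1 + σ • ε) := by
  have h1 : (1 + σ • ε) * (1 + σ • ε) = (2 : K) • (1 + σ • ε) := by
    simp only [add_mul, mul_add, one_mul, mul_one, smul_mul_smul_comm, hε, hσ, one_smul]
    module
  rw [smul_mul_smul_comm, h1, smul_smul]
  congr 1
  norm_num

lemma mul_half [CharZero K] {ε : Module.End K V} (hε : ε * ε = 1) {σ : K} (hσ : σ * σ = 1) :
    ε * ((1 / 2 : K) • (1 + σ • ε)) = σ • ((1 / 2 : K) • (1 + σ • ε)) := by
  rw [mul_smul_comm, smul_comm σ]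
  congr 1
  rw [mul_add, mul_one, mul_smul_comm, hε, smul_add, smul_smul, hσ, one_smul, add_comm]

section Ring

variable [CharZero K] [Module.Finite K V]
variable {E : Type*} [Ring E] [Module E V] (ρ : E →+* Module.End K V)

/-- **Semisimple rings of operators and hard Lefschetz.** Let `E` be a semisimple ring of operators
of even degree on a space with hard Lefschetz, which contains the Lefschetz operator. Then the super
trace form on `E` is nondegenerate. -/
theorem num_of_semisimple (h : DirectSum.IsInternal gr) (hL : IsHom gr 2 L)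
    (hbd : ∀ i, 2 * n + 1 ≤ i → gr i = ⊥) (hHL : HardLef gr n L)
    (hρ : ∀ x v, x • v = ρ x v) (hinj : Function.Injective ρ) [IsSemisimpleRing E]
    {l : E} (hl : ρ l = L) (hpar : ∀ x, par h * ρ x = ρ x * par h) (x : E)
    (hx : ∀ y, LinearMap.trace K V (par h * ρ (x * y)) = 0) : x = 0 := by
  -- the left ideal of the numerically trivial elements
  set N : Submodule E E :=
    { carrier := {x | ∀ y, LinearMap.trace K V (par h * ρ (x * y)) = 0}
      add_mem' := by
        intro a b ha hb y
        rw [add_mul, map_add, mul_add, map_add, ha y, hb y, add_zero]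
      zero_mem' := by
        intro y
        rw [zero_mul, map_zero, mul_zero, map_zero]
      smul_mem' := by
        intro c a ha y
        rw [smul_eq_mul, mul_assoc, map_mul ρ, ← mul_assoc, hpar, mul_assoc,
          LinearMap.trace_mul_comm, mul_assoc, ← map_mul ρ, mul_assoc]
        exact ha _ } with hN
  by_contra hx0
  have hNbot : N ≠ ⊥ := by
    intro h0
    have : x ∈ N := hx
    rw [h0, Submodule.mem_bot] at this
    exact hx0 this
  obtain ⟨m, hmN, hm⟩ := (IsSemisimpleModule.eq_bot_or_exists_simple_le N).resolve_left hNbot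
  obtain ⟨e, he, hme⟩ := IsSemisimpleRing.ideal_eq_span_idempotent (m : Ideal E)
  have hem : e ∈ m := by
    have : e ∈ Ideal.span {e} := Ideal.subset_span rfl
    rwa [← hme] at this
  have he0 : e ≠ 0 := by
    rintro rfl
    have h1 : m = ⊥ := by
      rw [hme]
      simp
    haveI := hm.nontrivial
    rw [h1] at this
    exact not_nontrivial _ this
  have htr : LinearMap.trace K V (par h * ρ e) = 0 := by
    have := hmN hem 1
    rwa [mul_one] at this
  -- the even and the odd part
  have hpp := par_mul_par h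
  have key : ∀ a : ℕ, ∃ v, par h v = (-1 : K) ^ a • v ∧ e • v ≠ 0 := by
    set P : ℕ → Module.End K V := fun a => (1 / 2 : K) • (1 + (-1 : K) ^ a • par h) with hP
    have hs : ∀ a : ℕ, ((-1 : K) ^ a) * (-1) ^ a = 1 := by
      intro a
      rw [← pow_add, ← two_mul, pow_mul]; simp
    have hPP : ∀ a, P a * P a = P a := fun a => half_idem hpp (hs a)
    have hPe : ∀ a, P a * ρ e = ρ e * P a := by
      intro a
      simp only [hP, smul_mul_assoc, mul_smul_comm, add_mul, mul_add, one_mul, mul_one, hpar]
    have hparP : ∀ a, par h * P a = (-1 : K) ^ a • P a := fun a => mul_half hpp (hs a)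
    have hid : ∀ a, (ρ e * P a) * (ρ e * P a) = ρ e * P a := by
      intro a
      rw [mul_assoc, ← mul_assoc (P a), hPe, mul_assoc, hPP, ← mul_assoc, ← map_mul, he.eq]
    have hsum : P 0 + P 1 = 1 := by
      simp only [hP]
      rw [pow_zero, pow_one]
      module
    have hdiff : P 0 - P 1 = par h := by
      simp only [hP]
      rw [pow_zero, pow_one]
      module
    have hrank : Module.finrank K (LinearMap.range (ρ e * P 0)) =
        Module.finrank K (LinearMap.range (ρ e * P 1)) := by
      have h1 := trace_idem (hid 0)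
      have h2 := trace_idem (hid 1)
      have h3 : LinearMap.trace K V (ρ e * P 0) = LinearMap.trace K V (ρ e * P 1) := by
        rw [← sub_eq_zero, ← map_sub, ← mul_sub, hdiff, ← hpar, htr]
      rw [h1, h2] at h3
      exact_mod_cast h3
    have hzero : ∀ a, Module.finrank K (LinearMap.range (ρ e * P a)) = 0 → ρ e * P a = 0 := by
      intro a ha
      rw [Submodule.finrank_eq_zero] at ha
      exact LinearMap.range_eq_bot.1 ha
    have hne : ∀ a ∈ ({0, 1} : Finset ℕ), ρ e * P a ≠ 0 := by
      intro a ha h1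
      apply he0
      apply hinj
      rw [map_zero, ← mul_one (ρ e), ← hsum, mul_add]
      have h2 : Module.finrank K (LinearMap.range (ρ e * P a)) = 0 := by
        rw [h1, LinearMap.range_zero, finrank_bot]
      simp only [Finset.mem_insert, Finset.mem_singleton] at ha
      rcases ha with rfl | rfl
      · rw [hzero 0 h2, hzero 1 (by rw [← hrank, h2]), add_zero]
      · rw [hzero 0 (by rw [hrank, h2]), hzero 1 h2, add_zero]
    have hvec : ∀ a ∈ ({0, 1} : Finset ℕ), ∃ v, par h v = (-1 : K) ^ a • v ∧ e • v ≠ 0 := by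
      intro a ha
      obtain ⟨w, hw⟩ : ∃ w, (ρ e * P a) w ≠ 0 := by
        by_contra hcon
        push Not at hcon
        exact hne a ha (LinearMap.ext hcon)
      refine ⟨P a w, ?_, ?_⟩
      · rw [← Module.End.mul_apply, hparP, LinearMap.smul_apply]
      · rw [hρ]
        exact hw
    intro a
    rcases Nat.even_or_odd a with ha | ha
    · obtain ⟨v, hv, hv'⟩ := hvec 0 (by simp)
      exact ⟨v, by rw [hv, ha.neg_one_pow, pow_zero], hv'⟩
    · obtain ⟨v, hv, hv'⟩ := hvec 1 (by simp)
      exact ⟨v, by rw [hv, ha.neg_one_pow, pow_one], hv'⟩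
  -- the embeddings of the simple left ideal
  have hemb : ∀ a : ℕ, ∃ (f : m →ₗ[E] V) (π : V →ₗ[E] m), (∀ s, π (f s) = s) ∧
      ∀ s, par h (f s) = (-1 : K) ^ a • f s := by
    intro a
    obtain ⟨v, hv, hv'⟩ := key a
    set f : m →ₗ[E] V := (LinearMap.toSpanSingleton E V v) ∘ₗ m.subtype with hf
    have hfe : f ⟨e, hem⟩ = e • v := rfl
    have hf0 : f ≠ 0 := by
      intro h0
      apply hv'
      rw [← hfe, h0, LinearMap.zero_apply]
    obtain ⟨π, hπ⟩ := IsSemisimpleModule.extension_property f (LinearMap.injective_of_ne_zero hf0)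
      LinearMap.id
    refine ⟨f, π, fun s => congrArg (fun G => G s) hπ, ?_⟩
    intro s
    have h1 : f s = (s : E) • v := rfl
    rw [h1, hρ, ← Module.End.mul_apply, hpar, Module.End.mul_apply, hv, map_smul]
  -- `L` is nilpotent
  have hLnil : L ^ (n + 1) = 0 := by
    apply gr_ext h
    intro i a ha
    have := pow_L_mem hL ha (n + 1)
    rw [hbd _ (by omega)] at this
    rw [(Submodule.mem_bot _).1 this, LinearMap.zero_apply]
  have hlnil : l ^ (n + 1) = 0 := by
    apply hinj
    rw [map_pow, hl, hLnil, map_zero]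
  have hlv : ∀ (k : ℕ) (v : V), (l ^ k) • v = (L ^ k) v := by
    intro k v
    rw [hρ, map_pow, hl]
  obtain ⟨s₀, hs₀, hls₀⟩ : ∃ s₀ : m, s₀ ≠ 0 ∧ l • s₀ = 0 := by
    have hex : ∃ t, (l ^ t) • (⟨e, hem⟩ : m) = 0 := ⟨n + 1, by rw [hlnil, zero_smul]⟩
    classical
    have h1 := Nat.find_spec hex
    have h2 : Nat.find hex ≠ 0 := by
      intro h0
      rw [h0, pow_zero, one_smul] at h1
      exact he0 (congrArg Subtype.val h1)
    obtain ⟨t, ht⟩ := Nat.exists_eq_succ_of_ne_zero h2
    refine ⟨(l ^ t) • ⟨e, hem⟩, Nat.find_min hex (by omega), ?_⟩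
    rw [smul_smul, ← pow_succ']
    rw [ht] at h1
    exact h1
  have hchain : ∀ k, ∃ s : m, s₀ = (l ^ k) • s := by
    intro k
    induction k with
    | zero => exact ⟨s₀, by rw [pow_zero, one_smul]⟩
    | succ k ih =>
      obtain ⟨s, hs⟩ := ih
      obtain ⟨a, ha⟩ : ∃ a, Odd (k + n + a) := ⟨k + n + 1, k + n, by ring⟩
      obtain ⟨f, π, hπ, hf⟩ := hemb a
      obtain ⟨z, hz⟩ := jordan_par h hL hbd hHL ha (hf s) (by
        rw [← hlv, ← map_smul, pow_succ', ← smul_smul, ← hs, hls₀, map_zero])
      refine ⟨π z, ?_⟩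
      rw [← map_smul, hlv, ← hz, ← hlv, ← map_smul f, ← hs, hπ]
  obtain ⟨s, hs⟩ := hchain (n + 1)
  rw [hlnil, zero_smul] at hs
  exact hs₀ hs

/-- The converse. -/
theorem semisimple_of_num [IsArtinianRing E] (h : DirectSum.IsInternal gr)
    (hpar : ∀ x, par h * ρ x = ρ x * par h)
    (hnum : ∀ x, (∀ y, LinearMap.trace K V (par h * ρ (x * y)) = 0) → x = 0) :
    IsSemisimpleRing E := by
  rw [IsArtinianRing.isSemisimpleRing_iff_jacobson, eq_bot_iff]
  intro x hx
  rw [Submodule.mem_bot]
  apply hnum
  intro y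
  have h1 : x * y ∈ Ring.jacobson E := Ideal.mul_mem_right _ _ hx
  obtain ⟨N, hN⟩ := IsSemiprimaryRing.isNilpotent (R := E)
  have h2 : (x * y) ^ N = 0 := by
    have := Ideal.pow_mem_pow h1 N
    rw [hN] at this
    exact (Submodule.mem_bot _).1 this
  have h3 : IsNilpotent (par h * ρ (x * y)) := by
    refine ⟨N, ?_⟩
    have hc : Commute (par h) (ρ (x * y)) := hpar _
    rw [hc.mul_pow, ← map_pow, h2, map_zero, mul_zero]
  exact (LinearMap.isNilpotent_trace_of_isNilpotent h3).eq_zero

end Ring

end Pool.Agent.X264
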