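import Pool.Agent.X264.SemiA
import Pool.Agent.X264.LadderB
import Pool.Agent.X264.RingDefs

/-!
# The ring of correspondences and the conjecture D
-/

open CategoryTheory AlgebraicGeometry Finset

universe u v

namespace Pool.Agent.X264

open Pool.Agent.H914 VarClass Obj WeilCohomology Pool.Agent.H447 Pool.Agent.W537

/-- Super traces of operators of nonzero degree vanish. -/
lemma str_eq_zero {K : Type*} [Field K] [CharZero K] {V : Type*} [AddCommGroup V] [Module K V]
    [Module.Finite K V] {gr : ℕ → Submodule K V} (h : DirectSum.IsInternal gr) {d : ℤ}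
    (hd : d ≠ 0) {T : Module.End K V} (hT : IsHom gr (2 * d) T) :
    LinearMap.trace K V (par h * T) = 0 := by
  have h1 : IsHom gr (2 * d) (par h * T) := by
    have := (isHom_scal h (fun i : ℕ => (-1 : K) ^ i)).mul hT
    rwa [zero_add] at this
  have h2 := congrArg (LinearMap.trace K V) (h1.wt_comm h 0)
  rw [map_add, LinearMap.trace_mul_comm K (wt h 0), map_smul, left_eq_add, smul_eq_mul,
    mul_eq_zero] at h2
  refine h2.resolve_left ?_
  exact_mod_cast mul_ne_zero two_ne_zero hd

variable {k : Type u} [Field k] {𝒱 : VarClass k} {ops : CycleOps 𝒱}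
  {W : WeilCohomology.{u, v} ops} {X : 𝒱.Obj}

section Decomposition

/-- The operator `T` is a finite sum of operators induced by cycles. -/
def Dec (W : WeilCohomology.{u, v} ops) (X : 𝒱.Obj) (T : Module.End W.K (W.H X)) : Prop :=
  ∃ f : ℤ →₀ Module.End W.K (W.H X), (∀ d, ROp W X d (f d)) ∧ f.sum (fun _ y => y) = T

lemma Dec.of_rop {d : ℤ} {T : Module.End W.K (W.H X)} (hT : ROp W X d T) : Dec W X T := by
  classical
  refine ⟨Finsupp.single d T, ?_, by rw [Finsupp.sum_single_index rfl]⟩
  intro e
  by_cases he : e = d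
  · subst he
    rw [Finsupp.single_eq_same]
    exact hT
  · rw [Finsupp.single_eq_of_ne he]
    exact rop_opAlg.zero e

lemma Dec.add {S T : Module.End W.K (W.H X)} (hS : Dec W X S) (hT : Dec W X T) :
    Dec W X (S + T) := by
  classical
  obtain ⟨f, hf, rfl⟩ := hS
  obtain ⟨g, hg, rfl⟩ := hT
  exact ⟨f + g, fun d => rop_opAlg.add (hf d) (hg d),
    Finsupp.sum_add_index' (fun _ => rfl) (fun _ _ _ => rfl)⟩

lemma Dec.sum {ι : Type*} {s : Finset ι} {T : ι → Module.End W.K (W.H X)}
    (hT : ∀ i ∈ s, Dec W X (T i)) : Dec W X (∑ i ∈ s, T i) := by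
  classical
  induction s using Finset.induction_on with
  | empty =>
    rw [Finset.sum_empty]
    exact Dec.of_rop (rop_opAlg.zero 0)
  | insert a s ha ih =>
    rw [Finset.sum_insert ha]
    exact (hT a (by simp)).add (ih (fun i hi => hT i (by simp [hi])))

lemma Dec.mul {S T : Module.End W.K (W.H X)} (hS : Dec W X S) (hT : Dec W X T) :
    Dec W X (S * T) := by
  obtain ⟨f, hf, rfl⟩ := hS
  obtain ⟨g, hg, rfl⟩ := hT
  rw [Finsupp.sum, Finsupp.sum, Finset.sum_mul_sum]
  exact Dec.sum fun d _ => Dec.sum fun e _ => Dec.of_rop (rop_opAlg.mul (hf d) (hg e))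

lemma rop_mem {d : ℤ} {T : Module.End W.K (W.H X)} (hT : ROp W X d T) : T ∈ corrRing W X := by
  obtain ⟨Y, ⟨q, _, z, hz, hY⟩ | ⟨_, hY⟩, rfl⟩ := hT
  · rw [hY]
    exact Subring.subset_closure ⟨q, z, hz, rfl⟩
  · rw [hY]
    exact Subring.zero_mem _

lemma mem_corrRing_iff {T : Module.End W.K (W.H X)} : T ∈ corrRing W X ↔ Dec W X T := by
  constructor
  · intro hT
    induction hT using Subring.closure_induction with
    | mem T hT =>
      obtain ⟨p, z, hz, rfl⟩ := hT
      exact Dec.of_rop (d := (p : ℤ) - X.dim) ⟨fun W => W.corr (W.cl _ z),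
        Or.inl ⟨p, by omega, z, hz, fun _ => rfl⟩, rfl⟩
    | zero => exact Dec.of_rop (rop_opAlg.zero 0)
    | one => exact Dec.of_rop rop_opAlg.one
    | add S T _ _ hS hT => exact hS.add hT
    | neg T _ hT =>
      obtain ⟨f, hf, rfl⟩ := hT
      rw [Finsupp.sum, ← Finset.sum_neg_distrib]
      exact Dec.sum fun d _ => Dec.of_rop (rop_opAlg.neg (hf d))
    | mul S T _ _ hS hT => exact hS.mul hT
  · rintro ⟨f, hf, rfl⟩
    exact Subring.sum_mem _ fun d _ => rop_mem (hf d)

lemma par_comm_corr {T : Module.End W.K (W.H X)} (hT : T ∈ corrRing W X) :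
    par (W.isInternal X) * T = T * par (W.isInternal X) := by
  obtain ⟨f, hf, rfl⟩ := mem_corrRing_iff.1 hT
  rw [Finsupp.sum, Finset.mul_sum, Finset.sum_mul]
  exact Finset.sum_congr rfl fun d _ => (rop_opAlg.hom (hf d)).par_comm (W.isInternal X)

/-- The pairing of an element of the ring with a homogeneous operator. -/
lemma str_dec {f : ℤ →₀ Module.End W.K (W.H X)} (hf : ∀ d, ROp W X d (f d)) {e : ℤ}
    {S : Module.End W.K (W.H X)} (hS : ROp W X (-e) S) :
    LinearMap.trace W.K (W.H X) (par (W.isInternal X) * (f.sum (fun _ y => y) * S)) =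
      LinearMap.trace W.K (W.H X) (par (W.isInternal X) * (f e * S)) := by
  classical
  rw [Finsupp.sum, Finset.sum_mul, Finset.mul_sum, map_sum]
  rw [Finset.sum_eq_single e]
  · intro d _ hde
    have h1 := rop_opAlg.hom (rop_opAlg.mul (hf d) hS)
    exact str_eq_zero _ (by omega) h1
  · intro he
    rw [Finsupp.notMem_support_iff.1 he, zero_mul, mul_zero, map_zero]

/-- **D for `X × X` in terms of the ring of correspondences.** -/
theorem homEqNum_square_iff : HomEqNum W (X.prod X) ↔ ∀ T ∈ corrRing W X,
    (∀ S ∈ corrRing W X,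
      LinearMap.trace W.K (W.H X) (par (W.isInternal X) * (T * S)) = 0) → T = 0 := by
  have hall : HomEqNum W (X.prod X) ↔ ∀ q ≤ 2 * X.dim, HomEqNumIn W (X.prod X) q := by
    constructor
    · intro h q hq
      exact h q (by rw [dim_prod]; omega)
    · intro h q hq
      exact h q (by rw [dim_prod] at hq; omega)
  rw [hall]
  constructor
  · intro h T hT hnum
    obtain ⟨f, hf, rfl⟩ := mem_corrRing_iff.1 hT
    rw [Finsupp.sum]
    apply Finset.sum_eq_zero
    intro d _
    have hNT : NT (ROp W X) (W.isInternal X) d (f d) := by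
      refine ⟨hf d, fun y hy => ?_⟩
      rw [← str_dec hf hy]
      exact hnum y (rop_mem hy)
    by_cases h1 : (X.dim : ℤ) + d < 0
    · apply eq_zero_of_isHom (W.isInternal X) (n := X.dim) (fun i hi => W.gr_eq_bot X i hi)
        (d := 2 * d) (by omega) (rop_opAlg.hom (hf d))
    · obtain ⟨q, hq⟩ := Int.eq_ofNat_of_zero_le (not_lt.1 h1)
      have hq' : (X.dim : ℤ) + d = (q : ℤ) := hq
      by_cases hq2 : q ≤ 2 * X.dim
      · exact (homEqNumIn_iff hq2 (by omega)).1 (h q hq2) _ hNT
      · apply gr_ext (W.isInternal X)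
        intro i a ha
        rw [LinearMap.zero_apply]
        have h2 := (rop_opAlg.hom (hf d)) i a (by rw [grZ_natCast]; exact ha)
        rw [show (i : ℤ) + 2 * d = ((i + 2 * (q - X.dim) : ℕ) : ℤ) by omega, grZ_natCast,
          W.gr_eq_bot X _ (by omega)] at h2
        exact (Submodule.mem_bot _).1 h2
  · intro h q hq
    rw [homEqNumIn_iff hq (d := (q : ℤ) - X.dim) (by omega)]
    intro u hu
    apply h u (rop_mem hu.1)
    intro S hS
    obtain ⟨g, hg, rfl⟩ := mem_corrRing_iff.1 hS
    rw [Finsupp.sum, Finset.mul_sum, Finset.mul_sum, map_sum]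
    apply Finset.sum_eq_zero
    intro e _
    by_cases he : e = -((q : ℤ) - X.dim)
    · subst he
      exact hu.2 _ (hg _)
    · have h1 := rop_opAlg.hom (rop_opAlg.mul hu.1 (hg e))
      exact str_eq_zero _ (by omega) h1

end Decomposition

section Artinian

/-- Rational multiples. -/
lemma ratCast_smul_mem (q : ℚ) {T : Module.End W.K (W.H X)} (hT : T ∈ corrRing W X) :
    (q : W.K) • T ∈ corrRing W X := by
  obtain ⟨f, hf, rfl⟩ := mem_corrRing_iff.1 hT
  rw [Finsupp.sum, Finset.smul_sum]
  exact Subring.sum_mem _ fun d _ => rop_mem (rop_opAlg.smul q (hf d))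

/-- The rational numbers in the ring of correspondences. -/
noncomputable def ratHom (W : WeilCohomology.{u, v} ops) (X : 𝒱.Obj) : ℚ →+* corrRing W X where
  toFun q := ⟨(q : W.K) • 1, ratCast_smul_mem q (Subring.one_mem _)⟩
  map_one' := by ext; simp
  map_mul' := by
    intro a b
    apply Subtype.ext
    change ((a * b : ℚ) : W.K) • (1 : Module.End W.K (W.H X)) = ((a : W.K) • 1) * ((b : W.K) • 1)
    rw [smul_mul_smul_comm, one_mul, Rat.cast_mul]
  map_zero' := by ext; simp
  map_add' := by
    intro a b
    apply Subtype.ext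
    change ((a + b : ℚ) : W.K) • (1 : Module.End W.K (W.H X)) = (a : W.K) • 1 + (b : W.K) • 1
    rw [Rat.cast_add, add_smul]

/-- If homological and numerical equivalence agree on `X × X`, the ring of correspondences is
Artinian. -/
theorem artinian_of_homEqNum (hD : HomEqNum W (X.prod X)) : IsArtinianRing (corrRing W X) := by
  classical
  have hcomm : ∀ (q : ℚ) (x : corrRing W X), ratHom W X q * x = x * ratHom W X q := by
    intro q x
    apply Subtype.ext
    change ((q : W.K) • 1) * (x : Module.End W.K (W.H X)) = x * ((q : W.K) • 1)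
    rw [smul_mul_assoc, one_mul, mul_smul_comm, mul_one]
  letI : Algebra ℚ (corrRing W X) := (ratHom W X).toAlgebra' hcomm
  have hsmul : ∀ (q : ℚ) (x : corrRing W X),
      ((q • x : corrRing W X) : Module.End W.K (W.H X)) = (q : W.K) • (x : Module.End W.K (W.H X)) := by
    intro q x
    rw [Algebra.smul_def]
    change ((q : W.K) • 1) * (x : Module.End W.K (W.H X)) = (q : W.K) • (x : Module.End W.K (W.H X))
    rw [smul_mul_assoc, one_mul]
  -- finitely many homogeneous operators which span
  obtain ⟨t, ht, hspan⟩ := (Submodule.fg_span_iff_fg_span_finset_subset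
    (R := W.K) (⋃ d : ℤ, {T : Module.End W.K (W.H X) | ROp W X d T})).1
    (IsNoetherian.noetherian _)
  obtain ⟨ret, hret⟩ := exists_retract W.K
  set β : Module.End W.K (W.H X) → Module.End W.K (W.H X) → W.K :=
    fun T S => LinearMap.trace W.K (W.H X) (par (W.isInternal X) * (T * S)) with hβ
  set φ : corrRing W X →ₗ[ℚ] (t → ℚ) :=
    { toFun := fun x S => ret (β x S)
      map_add' := by
        intro x y
        funext S
        simp only [hβ, Subring.coe_add, add_mul, mul_add, map_add, Pi.add_apply]
      map_smul' := by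
        intro q x
        funext S
        simp only [hβ, hsmul, smul_mul_assoc, mul_smul_comm, map_smul, smul_eq_mul,
          RingHom.id_apply, Pi.smul_apply]
        rw [mul_comm, ret_mul, mul_comm] } with hφ
  have hinj : Function.Injective φ := by
    rw [← LinearMap.ker_eq_bot, LinearMap.ker_eq_bot']
    intro x hx
    apply Subtype.ext
    apply homEqNum_square_iff.1 hD _ x.2
    have h1 : ∀ S ∈ t, β x S = 0 := by
      intro S hS
      have h2 : ret (β x S) = 0 := congrFun hx ⟨S, hS⟩
      obtain ⟨d, hd⟩ := Set.mem_iUnion.1 (ht hS)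
      obtain ⟨f, hf, hfx⟩ := mem_corrRing_iff.1 x.2
      have h3 : β x S = β (f (-d)) S := by
        rw [hβ]
        dsimp only
        rw [← hfx]
        exact str_dec hf (e := -d) (by rw [neg_neg]; exact hd)
      obtain ⟨q, hq⟩ := rop_str _ (rop_opAlg.cast (rop_opAlg.mul (hf (-d)) hd) (by ring))
      have h4 : β x S = q := h3.trans hq
      rw [h4, ret_ratCast hret] at h2
      rw [h4, h2, Rat.cast_zero]
    have h2 : ∀ S ∈ Submodule.span W.K (⋃ d : ℤ, {T : Module.End W.K (W.H X) | ROp W X d T}),
        β x S = 0 := by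
      intro S hS
      rw [hspan] at hS
      induction hS using Submodule.span_induction with
      | mem S hS => exact h1 S hS
      | zero => simp [hβ]
      | add S T _ _ hS hT =>
        simp only [hβ, mul_add, map_add] at hS hT ⊢
        rw [hS, hT, add_zero]
      | smul c S _ hS =>
        simp only [hβ, mul_smul_comm, map_smul] at hS ⊢
        rw [hS, smul_zero]
    intro S hS
    apply h2
    obtain ⟨g, hg, rfl⟩ := mem_corrRing_iff.1 hS
    exact Submodule.sum_mem _ fun d _ => Submodule.subset_span (Set.mem_iUnion.2 ⟨d, hg d⟩)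
  haveI : Module.Finite ℚ (corrRing W X) := Module.Finite.of_injective φ hinj
  exact IsArtinianRing.of_finite ℚ (corrRing W X)

end Artinian

/-- **The ring of correspondences is semisimple if and only if homological and numerical
equivalence agree on `X × X`.** -/
theorem semisimple_of_homEqNum (hD : HomEqNum W (X.prod X)) : IsSemisimpleRing (corrRing W X) := by
  haveI := artinian_of_homEqNum hD
  apply semisimple_of_num (corrRing W X).subtype (W.isInternal X)
  · intro x
    exact par_comm_corr x.2
  · intro x hx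
    apply Subtype.ext
    apply homEqNum_square_iff.1 hD _ x.2
    intro S hS
    exact hx ⟨S, hS⟩

theorem homEqNum_of_semisimple {D : X.Cycles} (hD : X.IsCyc 1 D) (hHL : HardLefschetz W X D)
    (hss : IsSemisimpleRing (corrRing W X)) : HomEqNum W (X.prod X) := by
  rw [homEqNum_square_iff]
  intro T hT hnum
  have h1 := num_of_semisimple (corrRing W X).subtype (W.isInternal X) (LL_isHom hD W)
    W_hbd hHL (fun _ _ => rfl) (Subtype.val_injective) (l := ⟨LL D W, rop_mem (rop_mulLeft hD)⟩) rfl
    (fun x => par_comm_corr x.2) ⟨T, hT⟩ (fun y => hnum y y.2)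
  exact congrArg Subtype.val h1

/-- If `H(X)` is semisimple over the ring of correspondences, then this ring is semisimple. -/
theorem semisimple_ring_of_module (h : IsSemisimpleModule (corrRing W X) (W.H X)) :
    IsSemisimpleRing (corrRing W X) := by
  classical
  obtain ⟨s, hs⟩ := (inferInstance : Module.Finite W.K (W.H X)).1
  set f : corrRing W X →ₗ[corrRing W X] (s → W.H X) :=
    LinearMap.pi (fun v => LinearMap.toSpanSingleton (corrRing W X) (W.H X) v) with hf
  apply IsSemisimpleModule.of_injective f
  rw [← LinearMap.ker_eq_bot, LinearMap.ker_eq_bot']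
  intro x hx
  apply Subtype.ext
  have h1 : ∀ v ∈ (s : Set (W.H X)), (x : Module.End W.K (W.H X)) v = 0 :=
    fun v hv => congrFun hx ⟨v, hv⟩
  apply LinearMap.ext_on hs
  intro v hv
  rw [h1 v hv]
  rfl

end Pool.Agent.X264
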