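import Pool.Agent.X264.SemiB

/-!
# The module of algebraic classes over the ring of correspondences
-/

open CategoryTheory AlgebraicGeometry Finset

universe u v

namespace Pool.Agent.X264

open Pool.Agent.H914 VarClass Obj WeilCohomology Pool.Agent.H447 Pool.Agent.W537

variable {k : Type u} [Field k] {𝒱 : VarClass k} {ops : CycleOps 𝒱}
  {W : WeilCohomology.{u, v} ops} {X Y : 𝒱.Obj}

/-- The class `a` is a finite sum of classes of cycles. -/
def CDec (W : WeilCohomology.{u, v} ops) (X : 𝒱.Obj) (a : W.H X) : Prop :=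
  ∃ f : ℕ →₀ W.H X, (∀ j, f j ∈ algClasses W X j) ∧ f.sum (fun _ y => y) = a

lemma zero_mem_alg (j : ℕ) : (0 : W.H X) ∈ algClasses W X j :=
  ⟨0, SmVar.IsCyc.zero _ _, map_zero _⟩

lemma CDec.of_alg {j : ℕ} {a : W.H X} (ha : a ∈ algClasses W X j) : CDec W X a := by
  classical
  refine ⟨Finsupp.single j a, ?_, by rw [Finsupp.sum_single_index rfl]⟩
  intro e
  by_cases he : e = j
  · subst he
    rw [Finsupp.single_eq_same]
    exact ha
  · rw [Finsupp.single_eq_of_ne he]
    exact zero_mem_alg e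

lemma CDec.add {a b : W.H X} (ha : CDec W X a) (hb : CDec W X b) : CDec W X (a + b) := by
  classical
  obtain ⟨f, hf, rfl⟩ := ha
  obtain ⟨g, hg, rfl⟩ := hb
  refine ⟨f + g, fun j => ?_, Finsupp.sum_add_index' (fun _ => rfl) (fun _ _ _ => rfl)⟩
  obtain ⟨z, hz, hz'⟩ := hf j
  obtain ⟨w, hw, hw'⟩ := hg j
  exact ⟨z + w, hz.add hw, by rw [map_add, hz', hw']; rfl⟩

lemma CDec.sum {ι : Type*} {s : Finset ι} {a : ι → W.H X}
    (ha : ∀ i ∈ s, CDec W X (a i)) : CDec W X (∑ i ∈ s, a i) := by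
  classical
  induction s using Finset.induction_on with
  | empty =>
    rw [Finset.sum_empty]
    exact CDec.of_alg (zero_mem_alg 0)
  | insert i s hi ih =>
    rw [Finset.sum_insert hi]
    exact (ha i (by simp)).add (ih (fun j hj => ha j (by simp [hj])))

/-- The push-forward of an algebraic class. -/
lemma CDec.push {f : X ⟶ Y} {p : ℕ} {z : X.Cycles} (hz : X.IsCyc p z) :
    CDec W Y (W.push f (W.cl X z)) := by
  by_cases h : X.dim ≤ p + Y.dim
  · exact CDec.of_alg (j := p + Y.dim - X.dim)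
      ⟨ops.push f z, ops.push_mem f hz (by omega), W.cl_push f z⟩
  · have h1 := W.push_mem f (W.cl_mem hz)
    rw [grZ_of_neg (by push_cast; omega)] at h1
    rw [(Submodule.mem_bot _).1 h1]
    exact CDec.of_alg (zero_mem_alg 0)

lemma CDec.rop {d : ℤ} {T : Module.End W.K (W.H X)} (hT : ROp W X d T) {j : ℕ} {a : W.H X}
    (ha : a ∈ algClasses W X j) : CDec W X (T a) := by
  obtain ⟨z, hz, rfl⟩ := ha
  obtain ⟨Y, ⟨q, _, w, hw, hY⟩ | ⟨_, hY⟩, rfl⟩ := hT
  · rw [hY, corr_apply, ← W.cl_pull, ← W.cl_mul]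
    exact CDec.push (ops.mul_mem hw (ops.pull_mem _ hz))
  · rw [hY, LinearMap.zero_apply]
    exact CDec.of_alg (zero_mem_alg 0)

lemma CDec.apply {T : Module.End W.K (W.H X)} (hT : Dec W X T) {a : W.H X} (ha : CDec W X a) :
    CDec W X (T a) := by
  obtain ⟨f, hf, rfl⟩ := hT
  obtain ⟨g, hg, rfl⟩ := ha
  rw [Finsupp.sum, Finsupp.sum, LinearMap.sum_apply]
  refine CDec.sum fun d _ => ?_
  rw [map_sum]
  exact CDec.sum fun j _ => CDec.rop (hf d) (hg j)

lemma alg_mem {j : ℕ} {a : W.H X} (ha : a ∈ algClasses W X j) : a ∈ classModule W X := by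
  obtain ⟨z, hz, rfl⟩ := ha
  exact Submodule.subset_span ⟨j, z, hz, rfl⟩

lemma mem_classModule_iff {a : W.H X} : a ∈ classModule W X ↔ CDec W X a := by
  constructor
  · intro ha
    induction ha using Submodule.span_induction with
    | mem a ha =>
      obtain ⟨j, z, hz, rfl⟩ := ha
      exact CDec.of_alg ⟨z, hz, rfl⟩
    | zero => exact CDec.of_alg (zero_mem_alg 0)
    | add a b _ _ ha hb => exact ha.add hb
    | smul T a _ ha => exact CDec.apply (mem_corrRing_iff.1 T.2) ha
  · rintro ⟨f, hf, rfl⟩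
    exact Submodule.sum_mem _ fun j _ => alg_mem (hf j)

lemma one_mem_classModule : (1 : W.H X) ∈ classModule W X :=
  alg_mem (j := 0) ⟨X.V.fundCycle, SmVar.fundCycle_mem X.V, W.cl_fund X⟩

/-- Algebraic classes commute with all classes. -/
lemma class_comm {a : W.H X} (ha : a ∈ classModule W X) (b : W.H X) : a * b = b * a := by
  obtain ⟨f, hf, rfl⟩ := mem_classModule_iff.1 ha
  rw [Finsupp.sum, Finset.sum_mul, Finset.mul_sum]
  refine Finset.sum_congr rfl fun j _ => ?_
  obtain ⟨z, hz, hz'⟩ := hf j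
  rw [← hz']
  exact W.even_comm (W.cl_mem hz) b

/-- The product of a sum of classes with a class of complementary codimension. -/
lemma tr_dec {f : ℕ →₀ W.H X} (hf : ∀ j, f j ∈ algClasses W X j) {i j : ℕ} (hij : i + j = X.dim)
    {b : W.H X} (hb : b ∈ algClasses W X j) :
    W.tr X (f.sum (fun _ y => y) * b) = W.tr X (f i * b) := by
  classical
  obtain ⟨w, hw, rfl⟩ := hb
  rw [Finsupp.sum, Finset.sum_mul, map_sum, Finset.sum_eq_single i]
  · intro l _ hl
    obtain ⟨z, hz, hz'⟩ := hf l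
    rw [← hz']
    exact W.tr_eq_zero (W.mul_mem (W.cl_mem hz) (W.cl_mem hw)) (by omega)
  · intro hi
    rw [Finsupp.notMem_support_iff.1 hi, zero_mul, map_zero]

lemma alg_eq_zero {j : ℕ} (hj : X.dim < j) {a : W.H X} (ha : a ∈ algClasses W X j) : a = 0 := by
  obtain ⟨z, hz, rfl⟩ := ha
  have := W.cl_mem hz
  rw [W.gr_eq_bot _ _ (by omega)] at this
  exact (Submodule.mem_bot _).1 this

/-- Intersection numbers are rational. -/
lemma tr_rat {a b : W.H X} (ha : a ∈ classModule W X) (hb : b ∈ classModule W X) :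
    ∃ q : ℚ, W.tr X (a * b) = q := by
  classical
  obtain ⟨f, hf, rfl⟩ := mem_classModule_iff.1 ha
  obtain ⟨g, hg, rfl⟩ := mem_classModule_iff.1 hb
  have h1 : ∀ j, ∃ q : ℚ, W.tr X (f.sum (fun _ y => y) * g j) = q := by
    intro j
    by_cases hj : j ≤ X.dim
    · rw [tr_dec hf (i := X.dim - j) (by omega) (hg j)]
      obtain ⟨z, hz, hz'⟩ := hf (X.dim - j)
      obtain ⟨w, hw, hw'⟩ := hg j
      rw [← hz', ← hw', tr_mul_cl hz hw (by omega)]
      exact ⟨_, rfl⟩
    · exact ⟨0, by rw [alg_eq_zero (by omega) (hg j), mul_zero, map_zero, Rat.cast_zero]⟩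
  choose q hq using h1
  refine ⟨∑ j ∈ g.support, q j, ?_⟩
  rw [show g.sum (fun _ y => y) = ∑ j ∈ g.support, g j from rfl, Finset.mul_sum, map_sum]
  push_cast
  exact Finset.sum_congr rfl fun j _ => hq j

/-- **D for `X` in terms of the module of algebraic classes.** -/
theorem homEqNum_iff : HomEqNum W X ↔ ∀ a ∈ classModule W X,
    (∀ b ∈ classModule W X, W.tr X (a * b) = 0) → a = 0 := by
  classical
  constructor
  · intro h a ha hnum
    obtain ⟨f, hf, rfl⟩ := mem_classModule_iff.1 ha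
    rw [Finsupp.sum]
    apply Finset.sum_eq_zero
    intro j _
    by_cases hj : j ≤ X.dim
    · obtain ⟨z, hz, hz'⟩ := hf j
      rw [← hz']
      apply h j hj z hz
      intro w hw
      have h1 := hnum (W.cl X w) (alg_mem ⟨w, hw, rfl⟩)
      rw [tr_dec hf (i := j) (by omega) ⟨w, hw, rfl⟩, ← hz', tr_mul_cl hz hw (by omega)] at h1
      exact_mod_cast h1
    · exact alg_eq_zero (by omega) (hf j)
  · intro h j hj z hz hnum
    apply h _ (alg_mem ⟨z, hz, rfl⟩)
    intro b hb
    obtain ⟨g, hg, rfl⟩ := mem_classModule_iff.1 hb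
    rw [Finsupp.sum, Finset.mul_sum, map_sum]
    apply Finset.sum_eq_zero
    intro i _
    obtain ⟨w, hw, hw'⟩ := hg i
    rw [← hw']
    by_cases hi : i = X.dim - j
    · subst hi
      rw [tr_mul_cl hz hw (by omega), hnum w hw, Rat.cast_zero]
    · exact W.tr_eq_zero (W.mul_mem (W.cl_mem hz) (W.cl_mem hw)) (by omega)

/-- The operator `x ↦ tr(z x) a`. -/
noncomputable def ten (a z : W.H X) : Module.End W.K (W.H X) :=
  (W.tr X ∘ₗ LinearMap.mulLeft W.K z).smulRight a

@[simp] lemma ten_apply (a z x : W.H X) : ten a z x = W.tr X (z * x) • a := rfl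

lemma ten_mem {a z : W.H X} (ha : a ∈ classModule W X) (hz : z ∈ classModule W X) :
    ten a z ∈ corrRing W X := by
  obtain ⟨f, hf, rfl⟩ := mem_classModule_iff.1 ha
  obtain ⟨g, hg, rfl⟩ := mem_classModule_iff.1 hz
  have h1 : ten (f.sum (fun _ y => y)) (g.sum (fun _ y => y)) =
      ∑ i ∈ f.support, ∑ j ∈ g.support, ten (f i) (g j) := by
    apply LinearMap.ext
    intro x
    simp only [ten_apply, LinearMap.sum_apply, Finsupp.sum, Finset.sum_mul, map_sum,
      Finset.sum_smul, Finset.smul_sum]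
  rw [h1]
  refine Subring.sum_mem _ fun i _ => Subring.sum_mem _ fun j _ => ?_
  obtain ⟨w, hw, hw'⟩ := hf i
  obtain ⟨u, hu, hu'⟩ := hg j
  refine Subring.subset_closure ⟨j + i, ops.mul (ops.pull (fst X X) u) (ops.pull (snd X X) w),
    ops.mul_mem (ops.pull_mem _ hu) (ops.pull_mem _ hw), ?_⟩
  apply LinearMap.ext
  intro x
  rw [cycOp, corr_apply, W.cl_mul, W.cl_pull, W.cl_pull, mul_assoc,
    W.even_comm (W.map_mem (snd X X) (W.cl_mem hw)), ← mul_assoc, ← map_mul, push_snd, ten_apply,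
    hw', hu']

/-- Transposes. -/
lemma exists_transpose {T : Module.End W.K (W.H X)} (hT : T ∈ corrRing W X) {b : W.H X}
    (hb : b ∈ classModule W X) :
    ∃ b' ∈ classModule W X, ∀ x, W.tr X (b * T x) = W.tr X (b' * x) := by
  obtain ⟨f, hf, rfl⟩ := mem_corrRing_iff.1 hT
  obtain ⟨g, hg, rfl⟩ := mem_classModule_iff.1 hb
  have h1 : ∀ d j, ∃ b' ∈ classModule W X, ∀ x, W.tr X (g j * f d x) = W.tr X (b' * x) := by
    intro d j
    obtain ⟨z, hz, hz'⟩ := hg j
    obtain ⟨Y, ⟨q, _, w, hw, hY⟩ | ⟨_, hY⟩, hY'⟩ := hf d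
    · refine ⟨W.push (fst X X) (W.cl _ (ops.mul w (ops.pull (snd X X) z))),
        mem_classModule_iff.2 (CDec.push (ops.mul_mem hw (ops.pull_mem _ hz))), ?_⟩
      intro x
      rw [← hY', hY, corr_apply, ← hz', W.even_comm (W.cl_mem hz), W.tr_push, W.tr_push,
        W.cl_mul, W.cl_pull, mul_assoc, mul_assoc,
        ← W.even_comm (W.map_mem (snd X X) (W.cl_mem hz)) (W.map (fst X X) x)]
    · refine ⟨0, Submodule.zero_mem _, fun x => ?_⟩
      rw [← hY', hY]
      simp
  choose B hB hB' using h1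
  refine ⟨∑ d ∈ f.support, ∑ j ∈ g.support, B d j,
    Submodule.sum_mem _ fun d _ => Submodule.sum_mem _ fun j _ => hB d j, ?_⟩
  intro x
  simp only [Finsupp.sum, LinearMap.sum_apply, Finset.sum_mul, Finset.mul_sum, map_sum]
  exact Finset.sum_congr rfl fun d _ => Finset.sum_congr rfl fun j _ => hB' d j x

lemma exists_zeta (h : HasZeroCycle X) : ∃ ζ ∈ classModule W X, W.tr X ζ = 1 := by
  obtain ⟨z, hz, h0⟩ := h
  refine ⟨W.cl X ((X.V.degCycle z)⁻¹ • z), alg_mem (j := X.dim) ⟨_, hz.smul _, rfl⟩, ?_⟩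
  rw [cl_smul, map_smul, W.tr_cl hz, smul_eq_mul, ← Rat.cast_mul, inv_mul_cancel₀ h0,
    Rat.cast_one]

/-- The `E`-linear map `a ↦ (x ↦ tr(z x) a)` from the algebraic classes to the ring of
correspondences. -/
noncomputable def tenMap {z : W.H X} (hz : z ∈ classModule W X) :
    classModule W X →ₗ[corrRing W X] corrRing W X where
  toFun a := ⟨ten (a : W.H X) z, ten_mem a.2 hz⟩
  map_add' := by
    intro a b
    apply Subtype.ext
    apply LinearMap.ext
    intro x
    change W.tr X (z * x) • ((a : W.H X) + b) = W.tr X (z * x) • (a : W.H X) +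
      W.tr X (z * x) • (b : W.H X)
    rw [smul_add]
  map_smul' := by
    intro T a
    apply Subtype.ext
    apply LinearMap.ext
    intro x
    change W.tr X (z * x) • ((T : Module.End W.K (W.H X)) (a : W.H X)) =
      (T : Module.End W.K (W.H X)) (W.tr X (z * x) • (a : W.H X))
    rw [map_smul]

lemma tenMap_smul {z : W.H X} (hz : z ∈ classModule W X) (a b : classModule W X) :
    ((tenMap hz a • b : classModule W X) : W.H X) = W.tr X (z * b) • (a : W.H X) := rfl

lemma tenMap_injective {z : W.H X} (hz : z ∈ classModule W X) (h0 : z ≠ 0) :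
    Function.Injective (tenMap hz) := by
  rw [← LinearMap.ker_eq_bot, LinearMap.ker_eq_bot']
  intro a ha
  have h1 : ∀ x, W.tr X (z * x) • (a : W.H X) = 0 := by
    intro x
    exact congrArg (fun T : corrRing W X => (T : Module.End W.K (W.H X)) x) ha
  obtain ⟨x, hx⟩ : ∃ x, W.tr X (z * x) ≠ 0 := by
    by_contra hcon
    push Not at hcon
    exact h0 (W.nondeg z hcon)
  exact Subtype.ext ((smul_eq_zero.1 (h1 x)).resolve_left hx)

/-- **If the module of algebraic classes is injective, then homological and numerical equivalence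
agree.** -/
theorem homEqNum_of_injective (h : Module.Injective (corrRing W X) (classModule W X)) :
    HomEqNum W X := by
  rw [homEqNum_iff]
  intro z hz hnum
  by_contra h0
  obtain ⟨g, hg⟩ := h.out (tenMap hz) (tenMap_injective hz h0) LinearMap.id
  apply h0
  have h1 : ∀ a : classModule W X, a = tenMap hz a • g 1 := by
    intro a
    rw [← map_smul, smul_eq_mul, mul_one, hg a]
    rfl
  have h2 := congrArg Subtype.val (h1 ⟨z, hz⟩)
  rw [tenMap_smul, hnum _ (g 1).2, zero_smul] at h2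
  exact h2

/-- **If the ring of correspondences is self-injective, then homological and numerical equivalence
agree.** -/
theorem homEqNum_of_selfInjective (hX : HasZeroCycle X)
    (h : Module.Injective (corrRing W X) (corrRing W X)) : HomEqNum W X := by
  rw [homEqNum_iff]
  intro z hz hnum
  by_contra h0
  obtain ⟨ζ, hζ, hζ1⟩ := exists_zeta (W := W) hX
  obtain ⟨g, hg⟩ := h.out (tenMap hz) (tenMap_injective hz h0) (tenMap hζ)
  apply h0
  have h1 : tenMap hζ ⟨z, hz⟩ = tenMap hz ⟨z, hz⟩ * g 1 := by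
    rw [← smul_eq_mul, ← map_smul, smul_eq_mul, mul_one, hg]
  have h2 := congrArg (fun T : corrRing W X => (T : Module.End W.K (W.H X)) 1) h1
  have h3 : W.tr X (ζ * 1) • z = W.tr X (z * ((g 1 : Module.End W.K (W.H X)) 1)) • z := h2
  have h4 : (g 1 : Module.End W.K (W.H X)) 1 ∈ classModule W X :=
    Submodule.smul_mem _ (g 1) one_mem_classModule
  rw [mul_one, hζ1, one_smul, hnum _ h4, zero_smul] at h3
  exact h3

end Pool.Agent.X264
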