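import Pool.Agent.X264.SemiC

/-!
# Semisimplicity and injectivity of the module of algebraic classes
-/

open CategoryTheory AlgebraicGeometry Finset

universe u v

namespace Pool.Agent.X264

open Pool.Agent.H914 VarClass Obj WeilCohomology Pool.Agent.H447 Pool.Agent.W537

variable {k : Type u} [Field k] {𝒱 : VarClass k} {ops : CycleOps 𝒱}
  {W : WeilCohomology.{u, v} ops} {X Y : 𝒱.Obj}

/-- A class which is not numerically trivial generates the module of algebraic classes. -/
lemma generates {M : Submodule (corrRing W X) (classModule W X)} {c : classModule W X}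
    (hc : c ∈ M) {b : W.H X} (hb : b ∈ classModule W X) (h : W.tr X (b * c) ≠ 0) : M = ⊤ := by
  rw [eq_top_iff]
  intro a _
  obtain ⟨q, hq⟩ := tr_rat hb c.2
  have hq0 : q ≠ 0 := by
    rintro rfl
    apply h
    rw [hq, Rat.cast_zero]
  have h1 : a = ratHom W X q⁻¹ • (tenMap hb a • c) := by
    apply Subtype.ext
    change (a : W.H X) = (((q⁻¹ : ℚ) : W.K) • (1 : Module.End W.K (W.H X)))
      (W.tr X (b * c) • (a : W.H X))
    rw [hq, LinearMap.smul_apply, Module.End.one_apply, smul_smul, ← Rat.cast_mul,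
      inv_mul_cancel₀ hq0, Rat.cast_one, one_smul]
  rw [h1]
  exact M.smul_mem _ (M.smul_mem _ hc)

/-- D for `X` implies that the module of algebraic classes is semisimple. -/
theorem semisimple_classModule (hD : HomEqNum W X) :
    IsSemisimpleModule (corrRing W X) (classModule W X) := by
  rw [homEqNum_iff] at hD
  have key : ∀ M : Submodule (corrRing W X) (classModule W X), M = ⊥ ∨ M = ⊤ := by
    intro M
    by_cases hM : M = ⊥
    · exact Or.inl hM
    · right
      obtain ⟨c, hc, hc0⟩ := (Submodule.ne_bot_iff M).1 hM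
      obtain ⟨b, hb, hbc⟩ : ∃ b ∈ classModule W X, W.tr X (c * b) ≠ 0 := by
        by_contra hcon
        push Not at hcon
        exact hc0 (Subtype.ext (hD c c.2 hcon))
      exact generates hc hb (by rwa [class_comm hb])
  have hcl : ComplementedLattice (Submodule (corrRing W X) (classModule W X)) := ⟨fun M => by
    rcases key M with h | h
    · rw [h]
      exact ⟨⊤, isCompl_bot_top⟩
    · rw [h]
      exact ⟨⊥, isCompl_top_bot⟩⟩
  exact { toComplementedLattice := hcl }

/-- If the module of algebraic classes is semisimple, then D holds for `X`. -/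
theorem homEqNum_of_semisimple_classModule (hX : HasZeroCycle X)
    (h : IsSemisimpleModule (corrRing W X) (classModule W X)) : HomEqNum W X := by
  rw [homEqNum_iff]
  intro z hz hnum
  obtain ⟨ζ, hζ, hζ1⟩ := exists_zeta (W := W) hX
  -- the submodule generated by `z`
  set z' : classModule W X := ⟨z, hz⟩ with hz'
  obtain ⟨C, hC⟩ := exists_isCompl (Submodule.span (corrRing W X) {z'})
  have hone : (⟨1, one_mem_classModule⟩ : classModule W X) ∈
      Submodule.span (corrRing W X) {z'} ⊔ C := by
    rw [hC.sup_eq_top]; trivial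
  obtain ⟨m, hm, c, hc, hmc⟩ := Submodule.mem_sup.1 hone
  obtain ⟨T, rfl⟩ := Submodule.mem_span_singleton.1 hm
  have h1 : W.tr X (ζ * (c : W.H X)) = 1 := by
    obtain ⟨b', hb', hbx⟩ := exists_transpose T.2 hζ
    have h2 := congrArg (fun a : classModule W X => W.tr X (ζ * (a : W.H X))) hmc
    have h3 : W.tr X (ζ * ((T : Module.End W.K (W.H X)) z)) = 0 := by
      rw [hbx, class_comm hb', hnum b' hb']
    have h4 : W.tr X (ζ * ((T : Module.End W.K (W.H X)) z)) + W.tr X (ζ * (c : W.H X)) =
        W.tr X (ζ * 1) := by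
      rw [← map_add, ← mul_add]
      exact h2
    rwa [h3, zero_add, mul_one, hζ1] at h4
  have hCtop : C = ⊤ := generates hc hζ (by rw [h1]; exact one_ne_zero)
  have h5 : z' ∈ Submodule.span (corrRing W X) {z'} ⊓ C :=
    ⟨Submodule.mem_span_singleton_self z', by rw [hCtop]; trivial⟩
  rw [hC.inf_eq_bot, Submodule.mem_bot] at h5
  exact congrArg Subtype.val h5

set_option maxHeartbeats 4000000 in
/-- D for `X` implies that the module of algebraic classes is injective. -/
theorem injective_of_homEqNum (hX : HasZeroCycle X) (hD : HomEqNum W X) :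
    Module.Injective (corrRing W X) (classModule W X) := by
  classical
  rw [homEqNum_iff] at hD
  obtain ⟨ζ, hζ, hζ1⟩ := exists_zeta (W := W) hX
  letI : Module ℚ (classModule W X) := Module.compHom _ (ratHom W X)
  have hsmul : ∀ (q : ℚ) (x : classModule W X),
      ((q • x : classModule W X) : W.H X) = (q : W.K) • (x : W.H X) := fun q x => rfl
  obtain ⟨ret, hret⟩ := exists_retract W.K
  have hretR : ∀ {a b : W.H X}, a ∈ classModule W X → b ∈ classModule W X →
      ((ret (W.tr X (a * b)) : ℚ) : W.K) = W.tr X (a * b) := by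
    intro a b ha hb
    obtain ⟨q, hq⟩ := tr_rat ha hb
    rw [hq, ret_ratCast hret]
  -- the intersection form
  set β : classModule W X →ₗ[ℚ] classModule W X →ₗ[ℚ] ℚ :=
    LinearMap.mk₂ ℚ (fun a b => ret (W.tr X ((a : W.H X) * b)))
      (fun a a' b => by
        rw [← map_add, ← map_add, ← add_mul]
        rfl)
      (fun q a b => by
        rw [hsmul, smul_mul_assoc, map_smul, smul_eq_mul, mul_comm, ret_mul, smul_eq_mul,
          mul_comm])
      (fun a b b' => by
        rw [← map_add, ← map_add, ← mul_add]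
        rfl)
      (fun q a b => by
        rw [hsmul, mul_smul_comm, map_smul, smul_eq_mul, mul_comm, ret_mul, smul_eq_mul,
          mul_comm]) with hβ
  have hβa : ∀ a b : classModule W X, β a b = ret (W.tr X ((a : W.H X) * b)) := fun a b => rfl
  have hβinj : Function.Injective β := by
    rw [← LinearMap.ker_eq_bot, LinearMap.ker_eq_bot']
    intro a ha
    apply Subtype.ext
    apply hD a a.2
    intro b hb
    rw [← hretR a.2 hb]
    have := congrArg (fun φ => φ ⟨b, hb⟩) ha
    rw [← hβa a ⟨b, hb⟩]
    change ((β a ⟨b, hb⟩ : ℚ) : W.K) = 0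
    rw [this]
    simp
  -- finiteness
  haveI : Module.Finite ℚ (classModule W X) := by
    obtain ⟨t, ht, hspan⟩ := (Submodule.fg_span_iff_fg_span_finset_subset
      (R := W.K) {a : W.H X | a ∈ classModule W X}).1 (IsNoetherian.noetherian _)
    have ht' : ∀ b : t, (b : W.H X) ∈ classModule W X := fun b => ht b.2
    set φ : classModule W X →ₗ[ℚ] (t → ℚ) :=
      LinearMap.pi (fun b => β.flip ⟨b, ht' b⟩) with hφ
    apply Module.Finite.of_injective φ
    rw [← LinearMap.ker_eq_bot, LinearMap.ker_eq_bot']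
    intro a ha
    apply Subtype.ext
    apply hD a a.2
    intro b hb
    have h1 : ∀ b ∈ t, W.tr X ((a : W.H X) * b) = 0 := by
      intro b hb
      rw [← hretR a.2 (ht hb)]
      have h2 : φ a ⟨b, hb⟩ = 0 := by rw [ha]; rfl
      have h3 : φ a ⟨b, hb⟩ = ret (W.tr X ((a : W.H X) * b)) := rfl
      rw [← h3, h2, Rat.cast_zero]
    have h2 : ∀ b ∈ Submodule.span W.K (t : Set (W.H X)), W.tr X ((a : W.H X) * b) = 0 := by
      intro b hb
      induction hb using Submodule.span_induction with
      | mem b hb => exact h1 b hb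
      | zero => rw [mul_zero, map_zero]
      | add b c _ _ hb hc => rw [mul_add, map_add, hb, hc, add_zero]
      | smul r b _ hb => rw [mul_smul_comm, map_smul, hb, smul_zero]
    apply h2
    rw [← hspan]
    exact Submodule.subset_span hb
  have hβsurj : Function.Surjective β :=
    (LinearMap.injective_iff_surjective_of_finrank_eq_finrank
      (Subspace.dual_finrank_eq (K := ℚ) (V := classModule W X)).symm).1 hβinj
  apply Module.Baer.injective
  intro J f
  -- the classes `b` with `1 ⊗ b` in the ideal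
  set one' : classModule W X := ⟨1, one_mem_classModule⟩ with hone'
  have htadd : ∀ b c : classModule W X,
      tenMap (b + c).2 one' = tenMap b.2 one' + tenMap c.2 one' := by
    intro b c
    apply Subtype.ext
    apply LinearMap.ext
    intro x
    change W.tr X (((b : W.H X) + c) * x) • (1 : W.H X) = W.tr X ((b : W.H X) * x) • (1 : W.H X) +
      W.tr X ((c : W.H X) * x) • (1 : W.H X)
    rw [add_mul, map_add, add_smul]
  have htsmul : ∀ (q : ℚ) (b : classModule W X),
      tenMap (q • b).2 one' = ratHom W X q * tenMap b.2 one' := by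
    intro q b
    apply Subtype.ext
    apply LinearMap.ext
    intro x
    change W.tr X (((q : W.K) • (b : W.H X)) * x) • (1 : W.H X) =
      (((q : ℚ) : W.K) • (1 : Module.End W.K (W.H X))) (W.tr X ((b : W.H X) * x) • (1 : W.H X))
    rw [smul_mul_assoc, map_smul, LinearMap.smul_apply, Module.End.one_apply, smul_assoc]
  set B : Submodule ℚ (classModule W X) :=
    { carrier := {b | tenMap b.2 one' ∈ J}
      add_mem' := by
        intro b c hb hc
        change tenMap (b + c).2 one' ∈ J
        rw [htadd]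
        exact J.add_mem hb hc
      zero_mem' := by
        change tenMap (0 : classModule W X).2 one' ∈ J
        have : tenMap (0 : classModule W X).2 one' = 0 := by
          apply Subtype.ext
          apply LinearMap.ext
          intro x
          change W.tr X ((0 : W.H X) * x) • (1 : W.H X) = 0
          rw [zero_mul, map_zero, zero_smul]
        rw [this]
        exact J.zero_mem
      smul_mem' := by
        intro q b hb
        change tenMap (q • b).2 one' ∈ J
        rw [htsmul]
        exact J.mul_mem_left _ hb } with hB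
  set lam : B →ₗ[ℚ] ℚ :=
    { toFun := fun b => β ⟨ζ, hζ⟩ (f ⟨tenMap b.1.2 one', b.2⟩)
      map_add' := by
        intro b c
        rw [← map_add (β ⟨ζ, hζ⟩), ← map_add f]
        congr 2
        apply Subtype.ext
        exact htadd b.1 c.1
      map_smul' := by
        intro q b
        have h1 : (⟨tenMap (q • b).1.2 one', (q • b).2⟩ : J) =
            ratHom W X q • ⟨tenMap b.1.2 one', b.2⟩ := by
          apply Subtype.ext
          exact htsmul q b.1
        rw [h1, map_smul f]
        exact map_smul (β ⟨ζ, hζ⟩) q _ } with hlam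
  obtain ⟨lam', hlam'⟩ := LinearMap.exists_extend lam
  obtain ⟨a, ha⟩ := hβsurj lam'
  refine ⟨LinearMap.toSpanSingleton (corrRing W X) (classModule W X) a, ?_⟩
  intro y hy
  rw [LinearMap.toSpanSingleton_apply, ← sub_eq_zero]
  apply Subtype.ext
  apply hD _ (y • a - f ⟨y, hy⟩).2
  intro c hc
  rw [class_comm (y • a - f ⟨y, hy⟩).2]
  obtain ⟨c', hc', hcx⟩ := exists_transpose y.2 hc
  have h1 : tenMap hc' one' = tenMap hc one' * y := by
    apply Subtype.ext
    apply LinearMap.ext
    intro x
    change W.tr X (c' * x) • (1 : W.H X) = W.tr X (c * (y : Module.End W.K (W.H X)) x) • (1 : W.H X)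
    rw [hcx]
  have h2 : tenMap hc' one' ∈ J := by
    rw [h1]
    exact J.mul_mem_left _ hy
  have h3 : f ⟨tenMap hc' one', h2⟩ = tenMap hc one' • f ⟨y, hy⟩ := by
    rw [← map_smul]
    congr 1
    apply Subtype.ext
    exact h1
  have h4 : lam ⟨⟨c', hc'⟩, h2⟩ = ret (W.tr X (c * (f ⟨y, hy⟩ : W.H X))) := by
    have h5 : lam ⟨⟨c', hc'⟩, h2⟩ = β ⟨ζ, hζ⟩ (f ⟨tenMap hc' one', h2⟩) := rfl
    rw [h5, h3, hβa]
    change ret (W.tr X (ζ * (W.tr X (c * (f ⟨y, hy⟩ : W.H X)) • (1 : W.H X)))) = _
    rw [mul_smul_comm, mul_one, map_smul, hζ1, smul_eq_mul, mul_one]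
  have h6 : lam' ⟨c', hc'⟩ = lam ⟨⟨c', hc'⟩, h2⟩ := by
    rw [← hlam']
    rfl
  have h7 : β a ⟨c', hc'⟩ = ret (W.tr X (c * ((y : Module.End W.K (W.H X)) (a : W.H X)))) := by
    rw [hβa, class_comm a.2, ← hcx]
  rw [ha, h6, h4] at h7
  have h8 : W.tr X (c * (f ⟨y, hy⟩ : W.H X)) =
      W.tr X (c * ((y : Module.End W.K (W.H X)) (a : W.H X))) := by
    rw [← hretR hc (f ⟨y, hy⟩).2, h7]
    exact hretR hc (y • a).2
  change W.tr X (c * ((y : Module.End W.K (W.H X)) (a : W.H X) - (f ⟨y, hy⟩ : W.H X))) = 0
  rw [mul_sub, map_sub, h8, sub_self]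

/-- Zero-cycles on products. -/
lemma HasZeroCycle.prod (W : WeilCohomology.{u, v} ops) (hX : HasZeroCycle X)
    (hY : HasZeroCycle Y) : HasZeroCycle (X.prod Y) := by
  obtain ⟨z, hz, h0⟩ := hX
  obtain ⟨w, hw, h0'⟩ := hY
  refine ⟨ops.mul (ops.pull (fst X Y) z) (ops.pull (snd X Y) w),
    ops.mul_mem (ops.pull_mem _ hz) (ops.pull_mem _ hw), ?_⟩
  intro h
  have h1 := W.tr_cl (X := X.prod Y) (ops.mul_mem (ops.pull_mem (fst X Y) hz)
    (ops.pull_mem (snd X Y) hw))
  rw [h, Rat.cast_zero, W.cl_mul, W.cl_pull, W.cl_pull, W.tr_prod, W.tr_cl hz, W.tr_cl hw,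
    ← Rat.cast_mul] at h1
  exact mul_ne_zero h0 h0' (by exact_mod_cast h1)

lemma IsProductOf.hasZeroCycle (W : WeilCohomology.{u, v} ops) {S : Set 𝒱.Obj}
    (hS : ∀ X ∈ S, HasZeroCycle X) {Y : 𝒱.Obj} (hY : IsProductOf S Y) : HasZeroCycle Y := by
  induction hY with
  | base h => exact hS _ h
  | prod _ _ h1 h2 => exact h1.prod W h2

end Pool.Agent.X264
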