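import Pool.Agent.X264.SemiD

/-!
# Generalized inverses and semisimplicity for rings of operators
-/

namespace Pool.Agent.X264

section Regular

variable {K : Type*} [Field K] {V : Type*} [AddCommGroup V] [Module K V]
  {E : Subring (Module.End K V)}

/-- A semisimple ring has generalized inverses. -/
theorem exists_inverse_of_semisimple {R : Type*} [Ring R] (h : IsSemisimpleRing R) (T : R) :
    ∃ S : R, T * S * T = T := by
  obtain ⟨C, hC⟩ := exists_isCompl (Submodule.span R {T})
  have hone : (1 : R) ∈ Submodule.span R {T} ⊔ C := by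
    rw [hC.sup_eq_top]; trivial
  obtain ⟨j, hj, c, hc, hjc⟩ := Submodule.mem_sup.1 hone
  obtain ⟨S, rfl⟩ := Submodule.mem_span_singleton.1 hj
  refine ⟨S, ?_⟩
  have h1 : T * c = T - T * S * T := by
    rw [eq_sub_of_add_eq' hjc, mul_sub, mul_one, smul_eq_mul, mul_assoc]
  have h2 : T * c ∈ Submodule.span R {T} ⊓ C := by
    refine ⟨?_, C.smul_mem T hc⟩
    rw [h1]
    exact Submodule.sub_mem _ (Submodule.mem_span_singleton_self T)
      (Submodule.smul_mem _ _ (Submodule.mem_span_singleton_self T))
  rw [hC.inf_eq_bot, Submodule.mem_bot, h1, sub_eq_zero] at h2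
  exact h2.symm

/-- A ring of operators with generalized inverses on a finite dimensional space is semisimple. -/
theorem semisimple_of_inverses [Module.Finite K V]
    (h : ∀ T ∈ E, ∃ S ∈ E, T * S * T = T) : IsSemisimpleRing E := by
  classical
  -- rank of an element
  set rk : E → ℕ := fun e => Module.finrank K (LinearMap.range (e : Module.End K V)) with hrk
  have hrk_le : ∀ e, rk e ≤ Module.finrank K V := fun e => Submodule.finrank_le _
  have key : ∀ J : Submodule E E, ∃ e ∈ J, e * e = e ∧ ∀ x ∈ J, x * e = x := by
    intro J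
    -- an idempotent of maximal rank
    have hex : ∃ n, ∃ e ∈ J, e * e = e ∧ rk e = n := ⟨_, 0, J.zero_mem, by simp, rfl⟩
    set P : ℕ → Prop := fun n => ∃ e ∈ J, e * e = e ∧ rk e = n with hP
    have hbd : ∀ n, P n → n ≤ Module.finrank K V := by
      rintro n ⟨e, _, _, rfl⟩
      exact hrk_le e
    obtain ⟨e, heJ, hee, hrke⟩ : P (Nat.findGreatest P (Module.finrank K V)) := by
      obtain ⟨n, hn⟩ := hex
      exact Nat.findGreatest_spec (hbd n hn) hn
    refine ⟨e, heJ, hee, ?_⟩
    intro x hx
    by_contra hcon
    -- `y = x (1 - e)`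
    set y : E := x * (1 - e) with hy
    have hyJ : y ∈ J := by
      rw [hy, mul_sub, mul_one]
      exact J.sub_mem hx (J.smul_mem x heJ)
    have hye : y * e = 0 := by
      rw [hy, mul_assoc, sub_mul, one_mul, hee, sub_self, mul_zero]
    have hy0 : y ≠ 0 := by
      intro h0
      apply hcon
      rw [hy, mul_sub, mul_one, sub_eq_zero] at h0
      exact h0.symm
    obtain ⟨S, hS, hyS⟩ := h y y.2
    have hyS' : y * ⟨S, hS⟩ * y = y := Subtype.ext hyS
    set s : E := ⟨S, hS⟩ with hs
    -- `g = (1 - e) s y`
    set g : E := (1 - e) * (s * y) with hg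
    have hge : g * e = 0 := by
      rw [hg, mul_assoc, mul_assoc, hye, mul_zero, mul_zero]
    have heg : e * g = 0 := by
      rw [hg, ← mul_assoc, mul_sub, mul_one, hee, sub_self, zero_mul]
    have hy1 : y * (1 - e) = y := by
      rw [mul_sub, mul_one, hye, sub_zero]
    have hgg : g * g = g := by
      calc g * g = (1 - e) * (s * ((y * (1 - e)) * s * y)) := by
            rw [hg]; noncomm_ring
        _ = (1 - e) * (s * (y * s * y)) := by rw [hy1]
        _ = g := by rw [hyS']
    have hgJ : g ∈ J := by
      rw [hg, ← mul_assoc]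
      exact J.smul_mem _ hyJ
    have hg0 : g ≠ 0 := by
      intro h0
      apply hy0
      calc y = y * s * y := hyS'.symm
        _ = (y * (1 - e)) * s * y := by rw [hy1]
        _ = y * ((1 - e) * (s * y)) := by noncomm_ring
        _ = y * g := by rw [hg]
        _ = 0 := by rw [h0, mul_zero]
    have hsum : P (rk (e + g)) := by
      refine ⟨e + g, J.add_mem heJ hgJ, ?_, rfl⟩
      rw [add_mul, mul_add, mul_add, hee, heg, hge, hgg, add_zero, zero_add]
    have hlt : rk e < rk (e + g) := by
      apply Submodule.finrank_lt_finrank_of_lt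
      rw [SetLike.lt_iff_le_and_exists]
      have hv : ∀ v, (e : Module.End K V) ((e : Module.End K V) v) = (e : Module.End K V) v :=
        fun v => congrArg (fun T : E => (T : Module.End K V) v) hee
      have hv2 : ∀ v, (g : Module.End K V) ((e : Module.End K V) v) = 0 :=
        fun v => congrArg (fun T : E => (T : Module.End K V) v) hge
      have hv3 : ∀ v, (e : Module.End K V) ((g : Module.End K V) v) = 0 :=
        fun v => congrArg (fun T : E => (T : Module.End K V) v) heg
      have hv4 : ∀ v, (g : Module.End K V) ((g : Module.End K V) v) = (g : Module.End K V) v :=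
        fun v => congrArg (fun T : E => (T : Module.End K V) v) hgg
      constructor
      · rintro _ ⟨v, rfl⟩
        refine ⟨(e : Module.End K V) v, ?_⟩
        change (e : Module.End K V) ((e : Module.End K V) v) +
          (g : Module.End K V) ((e : Module.End K V) v) = _
        rw [hv, hv2, add_zero]
      · obtain ⟨v, hgv⟩ : ∃ v, (g : Module.End K V) v ≠ 0 := by
          by_contra hc
          push Not at hc
          exact hg0 (Subtype.ext (LinearMap.ext hc))
        refine ⟨(g : Module.End K V) v, ⟨(g : Module.End K V) v, ?_⟩, ?_⟩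
        · change (e : Module.End K V) ((g : Module.End K V) v) +
            (g : Module.End K V) ((g : Module.End K V) v) = _
          rw [hv3, hv4, zero_add]
        · rintro ⟨w, hw⟩
          apply hgv
          rw [← hv4, ← hw, hv2]
    have hle : rk (e + g) ≤ Nat.findGreatest P (Module.finrank K V) :=
      Nat.le_findGreatest (hbd _ hsum) hsum
    omega
  have hcl : ComplementedLattice (Submodule E E) := by
    refine ⟨fun J => ?_⟩
    obtain ⟨e, heJ, hee, hJ⟩ := key J
    refine ⟨Submodule.span E {1 - e}, ?_⟩
    rw [isCompl_iff, disjoint_iff, codisjoint_iff]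
    constructor
    · rw [Submodule.eq_bot_iff]
      rintro x ⟨hx, hx'⟩
      obtain ⟨a, rfl⟩ := Submodule.mem_span_singleton.1 hx'
      have h1 := hJ _ hx
      rw [← h1, smul_eq_mul, mul_assoc, sub_mul, one_mul, hee, sub_self, mul_zero]
    · rw [eq_top_iff]
      intro x _
      have : x = x * e + x * (1 - e) := by rw [mul_sub, mul_one]; abel
      rw [this]
      exact Submodule.add_mem_sup (J.smul_mem x heJ)
        (Submodule.smul_mem _ x (Submodule.mem_span_singleton_self _))
  exact { toComplementedLattice := hcl }

end Regular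

end Pool.Agent.X264
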